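import Mathlib

/-!
# Elementary bounds for the oscillatory integrals of the disk
-/

open MeasureTheory Set

namespace Pool.Agent.Helper65

/-- Integration by parts with a monotone second derivative. -/
theorem osc3 {f0 f1 f2 f3 : ℝ → ℝ} {b ω : ℝ} (hb : 0 ≤ b) (hω : 0 < ω)
    (h0 : ∀ x ∈ Icc 0 b, HasDerivAt f0 (f1 x) x)
    (h1 : ∀ x ∈ Icc 0 b, HasDerivAt f1 (f2 x) x)
    (h2 : ∀ x ∈ Icc 0 b, HasDerivAt f2 (f3 x) x)
    (h3c : ContinuousOn f3 (Icc 0 b)) (h3 : ∀ x ∈ Icc 0 b, 0 ≤ f3 x) :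
    |∫ x in (0:ℝ)..b, f0 x * Real.cos (ω * x)| ≤
      |f0 b| / ω + |f1 b| / ω ^ 2 + |f1 0| / ω ^ 2 + (|f2 b| + (f2 b - f2 0)) / ω ^ 3 := by
  have hu : uIcc 0 b = Icc 0 b := uIcc_of_le hb
  have hf0c : ContinuousOn f0 (Icc 0 b) := fun x hx => (h0 x hx).continuousAt.continuousWithinAt
  have hint : IntervalIntegrable (fun x => f0 x * Real.cos (ω * x)) volume 0 b := by
    apply ContinuousOn.intervalIntegrable
    rw [hu]; exact hf0c.mul (by fun_prop)
  have hint3 : IntervalIntegrable f3 volume 0 b := by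
    apply ContinuousOn.intervalIntegrable
    rw [hu]; exact h3c
  have hint3s : IntervalIntegrable (fun x => f3 x * Real.sin (ω * x)) volume 0 b := by
    apply ContinuousOn.intervalIntegrable
    rw [hu]; exact h3c.mul (by fun_prop)
  have hftc : ∫ x in (0:ℝ)..b, (f0 x * Real.cos (ω * x) - f3 x * Real.sin (ω * x) / ω ^ 3) =
      (f0 b * Real.sin (ω * b) / ω + f1 b * Real.cos (ω * b) / ω ^ 2
        - f2 b * Real.sin (ω * b) / ω ^ 3) -
      (f0 0 * Real.sin (ω * 0) / ω + f1 0 * Real.cos (ω * 0) / ω ^ 2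
        - f2 0 * Real.sin (ω * 0) / ω ^ 3) := by
    apply intervalIntegral.integral_eq_sub_of_hasDerivAt
      (f := fun x => f0 x * Real.sin (ω * x) / ω + f1 x * Real.cos (ω * x) / ω ^ 2
        - f2 x * Real.sin (ω * x) / ω ^ 3)
    · intro x hx
      rw [hu] at hx
      have hs : HasDerivAt (fun x => Real.sin (ω * x)) (Real.cos (ω * x) * ω) x := by
        simpa using ((hasDerivAt_id' x).const_mul ω).sin
      have hc : HasDerivAt (fun x => Real.cos (ω * x)) (- Real.sin (ω * x) * ω) x := by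
        simpa using ((hasDerivAt_id' x).const_mul ω).cos
      have := ((((h0 x hx).mul hs).div_const ω).add (((h1 x hx).mul hc).div_const (ω ^ 2))).sub
        (((h2 x hx).mul hs).div_const (ω ^ 3))
      refine HasDerivAt.congr_deriv this ?_
      field_simp
      ring
    · exact hint.sub (hint3s.div_const _)
  have hsplit : ∫ x in (0:ℝ)..b, f0 x * Real.cos (ω * x) =
      (∫ x in (0:ℝ)..b, (f0 x * Real.cos (ω * x) - f3 x * Real.sin (ω * x) / ω ^ 3)) +
      (∫ x in (0:ℝ)..b, f3 x * Real.sin (ω * x)) / ω ^ 3 := by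
    rw [intervalIntegral.integral_sub hint (hint3s.div_const _), intervalIntegral.integral_div]
    ring
  have h3int : ∫ x in (0:ℝ)..b, f3 x = f2 b - f2 0 := by
    apply intervalIntegral.integral_eq_sub_of_hasDerivAt
    · intro x hx; rw [hu] at hx; exact h2 x hx
    · exact hint3
  have hb3 : |∫ x in (0:ℝ)..b, f3 x * Real.sin (ω * x)| ≤ f2 b - f2 0 := by
    rw [← h3int]
    apply (intervalIntegral.abs_integral_le_integral_abs hb).trans
    apply intervalIntegral.integral_mono_on hb hint3s.abs hint3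
    intro x hx
    rw [abs_mul, abs_of_nonneg (h3 x hx)]
    exact mul_le_of_le_one_right (h3 x hx) (Real.abs_sin_le_one _)
  rw [hsplit, hftc]
  simp only [mul_zero, Real.sin_zero, Real.cos_zero, zero_div, mul_one]
  have e1 : |f0 b * Real.sin (ω * b) / ω| ≤ |f0 b| / ω := by
    rw [abs_div, abs_mul, abs_of_pos hω]
    gcongr
    exact mul_le_of_le_one_right (abs_nonneg _) (Real.abs_sin_le_one _)
  have e2 : |f1 b * Real.cos (ω * b) / ω ^ 2| ≤ |f1 b| / ω ^ 2 := by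
    rw [abs_div, abs_mul, abs_of_pos (pow_pos hω 2)]
    gcongr
    exact mul_le_of_le_one_right (abs_nonneg _) (Real.abs_cos_le_one _)
  have e3 : |f2 b * Real.sin (ω * b) / ω ^ 3| ≤ |f2 b| / ω ^ 3 := by
    rw [abs_div, abs_mul, abs_of_pos (pow_pos hω 3)]
    gcongr
    exact mul_le_of_le_one_right (abs_nonneg _) (Real.abs_sin_le_one _)
  have e4 : |f1 0 / ω ^ 2| ≤ |f1 0| / ω ^ 2 := by
    rw [abs_div, abs_of_pos (pow_pos hω 2)]
  have e5 : |(∫ x in (0:ℝ)..b, f3 x * Real.sin (ω * x)) / ω ^ 3| ≤ (f2 b - f2 0) / ω ^ 3 := by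
    rw [abs_div, abs_of_pos (pow_pos hω 3)]
    gcongr
  rw [add_div]
  rw [abs_le] at *
  constructor <;> linarith [e1.1, e1.2, e2.1, e2.2, e3.1, e3.2, e4.1, e4.2, e5.1, e5.2]

/-- Integration by parts with a monotone first derivative. -/
theorem osc2 {f0 f1 f2 : ℝ → ℝ} {b ω : ℝ} (hb : 0 ≤ b) (hω : 0 < ω)
    (h0 : ∀ x ∈ Icc 0 b, HasDerivAt f0 (f1 x) x)
    (h1 : ∀ x ∈ Icc 0 b, HasDerivAt f1 (f2 x) x)
    (h2c : ContinuousOn f2 (Icc 0 b)) (h2 : ∀ x ∈ Icc 0 b, f2 x ≤ 0) :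
    |∫ x in (0:ℝ)..b, f0 x * Real.cos (ω * x)| ≤
      |f0 b| / ω + (|f1 b| + |f1 0| + (f1 0 - f1 b)) / ω ^ 2 := by
  have hu : uIcc 0 b = Icc 0 b := uIcc_of_le hb
  have hf0c : ContinuousOn f0 (Icc 0 b) := fun x hx => (h0 x hx).continuousAt.continuousWithinAt
  have hint : IntervalIntegrable (fun x => f0 x * Real.cos (ω * x)) volume 0 b := by
    apply ContinuousOn.intervalIntegrable
    rw [hu]; exact hf0c.mul (by fun_prop)
  have hint3 : IntervalIntegrable f2 volume 0 b := by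
    apply ContinuousOn.intervalIntegrable
    rw [hu]; exact h2c
  have hint3s : IntervalIntegrable (fun x => f2 x * Real.cos (ω * x)) volume 0 b := by
    apply ContinuousOn.intervalIntegrable
    rw [hu]; exact h2c.mul (by fun_prop)
  have hftc : ∫ x in (0:ℝ)..b, (f0 x * Real.cos (ω * x) + f2 x * Real.cos (ω * x) / ω ^ 2) =
      (f0 b * Real.sin (ω * b) / ω + f1 b * Real.cos (ω * b) / ω ^ 2) -
      (f0 0 * Real.sin (ω * 0) / ω + f1 0 * Real.cos (ω * 0) / ω ^ 2) := by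
    apply intervalIntegral.integral_eq_sub_of_hasDerivAt
      (f := fun x => f0 x * Real.sin (ω * x) / ω + f1 x * Real.cos (ω * x) / ω ^ 2)
    · intro x hx
      rw [hu] at hx
      have hs : HasDerivAt (fun x => Real.sin (ω * x)) (Real.cos (ω * x) * ω) x := by
        simpa using ((hasDerivAt_id' x).const_mul ω).sin
      have hc : HasDerivAt (fun x => Real.cos (ω * x)) (- Real.sin (ω * x) * ω) x := by
        simpa using ((hasDerivAt_id' x).const_mul ω).cos
      have := (((h0 x hx).mul hs).div_const ω).add (((h1 x hx).mul hc).div_const (ω ^ 2))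
      refine HasDerivAt.congr_deriv this ?_
      field_simp
      ring
    · exact hint.add (hint3s.div_const _)
  have hsplit : ∫ x in (0:ℝ)..b, f0 x * Real.cos (ω * x) =
      (∫ x in (0:ℝ)..b, (f0 x * Real.cos (ω * x) + f2 x * Real.cos (ω * x) / ω ^ 2)) -
      (∫ x in (0:ℝ)..b, f2 x * Real.cos (ω * x)) / ω ^ 2 := by
    rw [intervalIntegral.integral_add hint (hint3s.div_const _), intervalIntegral.integral_div]
    ring
  have h3int : ∫ x in (0:ℝ)..b, f2 x = f1 b - f1 0 := by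
    apply intervalIntegral.integral_eq_sub_of_hasDerivAt
    · intro x hx; rw [hu] at hx; exact h1 x hx
    · exact hint3
  have hb3 : |∫ x in (0:ℝ)..b, f2 x * Real.cos (ω * x)| ≤ f1 0 - f1 b := by
    have : f1 0 - f1 b = ∫ x in (0:ℝ)..b, - f2 x := by
      rw [intervalIntegral.integral_neg, h3int]; ring
    rw [this]
    apply (intervalIntegral.abs_integral_le_integral_abs hb).trans
    apply intervalIntegral.integral_mono_on hb hint3s.abs hint3.neg
    intro x hx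
    rw [abs_mul, abs_of_nonpos (h2 x hx)]
    exact mul_le_of_le_one_right (by linarith [h2 x hx]) (Real.abs_cos_le_one _)
  rw [hsplit, hftc]
  simp only [mul_zero, Real.sin_zero, Real.cos_zero, zero_div, mul_one]
  have e1 : |f0 b * Real.sin (ω * b) / ω| ≤ |f0 b| / ω := by
    rw [abs_div, abs_mul, abs_of_pos hω]
    gcongr
    exact mul_le_of_le_one_right (abs_nonneg _) (Real.abs_sin_le_one _)
  have e2 : |f1 b * Real.cos (ω * b) / ω ^ 2| ≤ |f1 b| / ω ^ 2 := by
    rw [abs_div, abs_mul, abs_of_pos (pow_pos hω 2)]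
    gcongr
    exact mul_le_of_le_one_right (abs_nonneg _) (Real.abs_cos_le_one _)
  have e4 : |f1 0 / ω ^ 2| ≤ |f1 0| / ω ^ 2 := by
    rw [abs_div, abs_of_pos (pow_pos hω 2)]
  have e5 : |(∫ x in (0:ℝ)..b, f2 x * Real.cos (ω * x)) / ω ^ 2| ≤ (f1 0 - f1 b) / ω ^ 2 := by
    rw [abs_div, abs_of_pos (pow_pos hω 2)]
    gcongr
  rw [add_div, add_div]
  rw [abs_le] at *
  constructor <;> linarith [e1.1, e1.2, e2.1, e2.2, e4.1, e4.2, e5.1, e5.2]

theorem hasDerivAt_sqrt_one_sub_sq {w : ℝ} (h : 0 < 1 - w ^ 2) :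
    HasDerivAt (fun w => √(1 - w ^ 2)) (- w / √(1 - w ^ 2)) w := by
  have h1 : HasDerivAt (fun w : ℝ => 1 - w ^ 2) (- (2 * w)) w := by
    simpa using (hasDerivAt_pow 2 w).const_sub 1
  refine HasDerivAt.congr_deriv (h1.sqrt h.ne') ?_
  have : √(1 - w ^ 2) ≠ 0 := (Real.sqrt_pos.mpr h).ne'
  field_simp

theorem one_sub_sq_pos {b w : ℝ} (hb : b < 1) (hw : w ∈ Icc 0 b) : 0 < 1 - w ^ 2 := by
  nlinarith [hw.1, hw.2]

/-- first half integral of the disk transform -/
theorem J_half {ω : ℝ} (hω : 2 ≤ ω) :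
    |∫ w in (0:ℝ)..1, √(1 - w ^ 2) * Real.cos (ω * w)| ≤ 5 * (1 / √ω) ^ 3 := by
  set t : ℝ := 1 / √ω with ht
  have hω0 : 0 < ω := by linarith
  have hsω : 0 < √ω := Real.sqrt_pos.mpr hω0
  have ht0 : 0 < t := by positivity
  have htt : t ^ 2 = 1 / ω := by rw [ht, div_pow, Real.sq_sqrt hω0.le, one_pow]
  have htω : 1 / ω = t ^ 2 := htt.symm
  have ht2 : t ^ 2 ≤ 1 / 2 := by rw [htt]; gcongr
  set b : ℝ := 1 - t ^ 2 with hb
  have hb0 : 0 ≤ b := by linarith
  have hb1 : b < 1 := by nlinarith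
  have hcb : 1 - b ^ 2 = t ^ 2 * (2 - t ^ 2) := by rw [hb]; ring
  set s : ℝ := √(1 - b ^ 2) with hs
  have hs2 : s ^ 2 = t ^ 2 * (2 - t ^ 2) := by
    rw [hs, Real.sq_sqrt (by nlinarith), hcb]
  have hs0 : 0 < s := Real.sqrt_pos.mpr (by nlinarith)
  have hst : t ≤ s := by
    apply le_of_sq_le_sq _ hs0.le
    rw [hs2]; nlinarith
  have hst2 : s ≤ 3 / 2 * t := by
    apply le_of_sq_le_sq _ (by positivity)
    rw [hs2]; nlinarith [sq_nonneg (t ^ 2)]
  have hI1 : IntervalIntegrable (fun w => √(1 - w ^ 2) * Real.cos (ω * w)) volume 0 b :=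
    Continuous.intervalIntegrable (by fun_prop) _ _
  have hI2 : IntervalIntegrable (fun w => √(1 - w ^ 2) * Real.cos (ω * w)) volume b 1 :=
    Continuous.intervalIntegrable (by fun_prop) _ _
  rw [← intervalIntegral.integral_add_adjacent_intervals hI1 hI2]
  have h1 := osc2 (f0 := fun w => √(1 - w ^ 2)) (f1 := fun w => - w / √(1 - w ^ 2))
    (f2 := fun w => - (√(1 - w ^ 2) + w ^ 2 / √(1 - w ^ 2)) / (1 - w ^ 2)) hb0 hω0
    (fun x hx => hasDerivAt_sqrt_one_sub_sq (one_sub_sq_pos hb1 hx))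
    (fun x hx => by
      have hpos := one_sub_sq_pos hb1 hx
      have hsp := Real.sqrt_pos.mpr hpos
      have := (hasDerivAt_neg' x).div (hasDerivAt_sqrt_one_sub_sq hpos) hsp.ne'
      refine HasDerivAt.congr_deriv this ?_
      rw [Real.sq_sqrt hpos.le]
      field_simp
      ring)
    (by
      intro x hx
      have hpos := one_sub_sq_pos hb1 hx
      have hsp := Real.sqrt_pos.mpr hpos
      apply ContinuousAt.continuousWithinAt
      have h1 : ContinuousAt (fun w : ℝ => √(1 - w ^ 2)) x := by fun_prop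
      have h2 : ContinuousAt (fun w : ℝ => 1 - w ^ 2) x := by fun_prop
      have h3 : ContinuousAt (fun w : ℝ => w ^ 2) x := by fun_prop
      exact ((h1.add (h3.div h1 hsp.ne')).neg).div h2 hpos.ne')
    (fun x hx => by
      have hpos := one_sub_sq_pos hb1 hx
      have hsp := Real.sqrt_pos.mpr hpos
      apply div_nonpos_of_nonpos_of_nonneg _ hpos.le
      have : 0 ≤ √(1 - x ^ 2) + x ^ 2 / √(1 - x ^ 2) := by positivity
      linarith)
  have h1' : |∫ w in (0:ℝ)..b, √(1 - w ^ 2) * Real.cos (ω * w)| ≤ 7 / 2 * t ^ 3 := by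
    refine h1.trans ?_
    rw [← hs, abs_of_pos hs0]
    have e0 : (-0 : ℝ) / √(1 - 0 ^ 2) = 0 := by simp
    rw [e0, abs_zero]
    have e1 : |-b / s| = b / s := by
      rw [neg_div, abs_neg, abs_of_nonneg (by positivity)]
    rw [e1]
    have e2 : (b / s + 0 + (0 - -b / s)) / ω ^ 2 = 2 * b / s * t ^ 4 := by
      have : t ^ 4 = 1 / ω ^ 2 := by
        have : t ^ 4 = (t ^ 2) ^ 2 := by ring
        rw [this, htt, div_pow, one_pow]
      rw [this]; ring
    rw [e2]
    have e3 : s / ω = s * t ^ 2 := by rw [htt]; ring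
    rw [e3]
    have e4 : s * t ^ 2 ≤ 3 / 2 * t * t ^ 2 := by gcongr
    have e5 : 2 * b / s * t ^ 4 ≤ 2 * 1 / t * t ^ 4 := by gcongr
    have e6 : 2 * 1 / t * t ^ 4 = 2 * t ^ 3 := by field_simp
    rw [e6] at e5
    nlinarith
  have h2 : |∫ w in b..1, √(1 - w ^ 2) * Real.cos (ω * w)| ≤ 3 / 2 * t ^ 3 := by
    have := intervalIntegral.norm_integral_le_of_norm_le_const (a := b) (b := 1)
      (f := fun w => √(1 - w ^ 2) * Real.cos (ω * w)) (C := s) (by
      intro x hx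
      rw [uIoc_of_le hb1.le] at hx
      rw [norm_mul, Real.norm_eq_abs, Real.norm_eq_abs, abs_of_nonneg (Real.sqrt_nonneg _)]
      calc √(1 - x ^ 2) * |Real.cos (ω * x)| ≤ √(1 - x ^ 2) * 1 := by
            gcongr; exact Real.abs_cos_le_one _
        _ = √(1 - x ^ 2) := mul_one _
        _ ≤ s := by
            apply Real.sqrt_le_sqrt
            nlinarith [hx.1])
    rw [Real.norm_eq_abs] at this
    refine this.trans ?_
    rw [abs_of_nonneg (by linarith)]
    have : 1 - b = t ^ 2 := by rw [hb]; ring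
    rw [this]
    calc s * t ^ 2 ≤ 3 / 2 * t * t ^ 2 := by gcongr
      _ = 3 / 2 * t ^ 3 := by ring
  calc |(∫ w in (0:ℝ)..b, √(1 - w ^ 2) * Real.cos (ω * w)) +
        ∫ w in b..1, √(1 - w ^ 2) * Real.cos (ω * w)| ≤ _ := abs_add_le _ _
    _ ≤ 7 / 2 * t ^ 3 + 3 / 2 * t ^ 3 := by gcongr
    _ = 5 * t ^ 3 := by ring

/-- second half integral -/
theorem K_half {ω : ℝ} (hω : 2 ≤ ω) :
    |∫ w in (0:ℝ)..1, ((1 - w ^ 2) * √(1 - w ^ 2)) * Real.cos (ω * w)| ≤ 20 * (1 / √ω) ^ 5 := by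
  set t : ℝ := 1 / √ω with ht
  have hω0 : 0 < ω := by linarith
  have hsω : 0 < √ω := Real.sqrt_pos.mpr hω0
  have ht0 : 0 < t := by positivity
  have htt : t ^ 2 = 1 / ω := by rw [ht, div_pow, Real.sq_sqrt hω0.le, one_pow]
  have ht2 : t ^ 2 ≤ 1 / 2 := by rw [htt]; gcongr
  have ht1 : t ≤ 1 := by nlinarith
  set b : ℝ := 1 - t ^ 2 with hb
  have hb0 : 0 ≤ b := by linarith
  have hb1 : b < 1 := by nlinarith
  have hcb : 1 - b ^ 2 = t ^ 2 * (2 - t ^ 2) := by rw [hb]; ring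
  set s : ℝ := √(1 - b ^ 2) with hs
  have hs2' : s ^ 2 = 1 - b ^ 2 := by
    rw [hs, Real.sq_sqrt (by nlinarith)]
  have hs2 : s ^ 2 = t ^ 2 * (2 - t ^ 2) := by
    rw [hs2', hcb]
  have hs0 : 0 < s := Real.sqrt_pos.mpr (by nlinarith)
  have hst : t ≤ s := by
    apply le_of_sq_le_sq _ hs0.le
    rw [hs2]; nlinarith
  have hst2 : s ≤ 3 / 2 * t := by
    apply le_of_sq_le_sq _ (by positivity)
    rw [hs2]; nlinarith [sq_nonneg (t ^ 2)]
  have hs3 : s ^ 3 ≤ 3 * t ^ 3 := by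
    calc s ^ 3 = s ^ 2 * s := by ring
      _ ≤ (2 * t ^ 2) * (3 / 2 * t) := by
          gcongr
          rw [hs2]; nlinarith [sq_nonneg (t ^ 2)]
      _ = 3 * t ^ 3 := by ring
  have hI1 : IntervalIntegrable (fun w => ((1 - w ^ 2) * √(1 - w ^ 2)) * Real.cos (ω * w))
      volume 0 b := Continuous.intervalIntegrable (by fun_prop) _ _
  have hI2 : IntervalIntegrable (fun w => ((1 - w ^ 2) * √(1 - w ^ 2)) * Real.cos (ω * w))
      volume b 1 := Continuous.intervalIntegrable (by fun_prop) _ _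
  rw [← intervalIntegral.integral_add_adjacent_intervals hI1 hI2]
  have h1 := osc3 (f0 := fun w => (1 - w ^ 2) * √(1 - w ^ 2))
    (f1 := fun w => - 3 * w * √(1 - w ^ 2))
    (f2 := fun w => - 3 * √(1 - w ^ 2) + 3 * w ^ 2 / √(1 - w ^ 2))
    (f3 := fun w => 9 * w / √(1 - w ^ 2) + 3 * w ^ 3 / ((1 - w ^ 2) * √(1 - w ^ 2))) hb0 hω0
    (fun x hx => by
      have hpos := one_sub_sq_pos hb1 hx
      have hsp := Real.sqrt_pos.mpr hpos
      have := (((hasDerivAt_id' x).pow 2).const_sub 1).mul (hasDerivAt_sqrt_one_sub_sq hpos)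
      refine HasDerivAt.congr_deriv this ?_
      have hsq : √(1 - x ^ 2) ^ 2 = 1 - x ^ 2 := Real.sq_sqrt hpos.le
      field_simp
      norm_num
      rw [hsq]
      ring)
    (fun x hx => by
      have hpos := one_sub_sq_pos hb1 hx
      have hsp := Real.sqrt_pos.mpr hpos
      have := ((hasDerivAt_id' x).const_mul (-3)).mul (hasDerivAt_sqrt_one_sub_sq hpos)
      refine HasDerivAt.congr_deriv this ?_
      field_simp)
    (fun x hx => by
      have hpos := one_sub_sq_pos hb1 hx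
      have hsp := Real.sqrt_pos.mpr hpos
      have h1 := hasDerivAt_sqrt_one_sub_sq hpos
      have := (h1.const_mul (-3)).add
        ((((hasDerivAt_id' x).pow 2).const_mul 3).div h1 hsp.ne')
      refine HasDerivAt.congr_deriv this ?_
      have hsq : √(1 - x ^ 2) ^ 2 = 1 - x ^ 2 := Real.sq_sqrt hpos.le
      rw [hsq]
      field_simp
      norm_num
      rw [hsq]
      ring)
    (by
      intro x hx
      have hpos := one_sub_sq_pos hb1 hx
      have hsp := Real.sqrt_pos.mpr hpos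
      apply ContinuousAt.continuousWithinAt
      have h1 : ContinuousAt (fun w : ℝ => √(1 - w ^ 2)) x := by fun_prop
      have h2 : ContinuousAt (fun w : ℝ => (1 - w ^ 2) * √(1 - w ^ 2)) x := by fun_prop
      have h3 : ContinuousAt (fun w : ℝ => 9 * w) x := by fun_prop
      have h4 : ContinuousAt (fun w : ℝ => 3 * w ^ 3) x := by fun_prop
      exact (h3.div h1 hsp.ne').add (h4.div h2 (by positivity)))
    (fun x hx => by
      have hpos := one_sub_sq_pos hb1 hx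
      have hsp := Real.sqrt_pos.mpr hpos
      have hx0 : 0 ≤ x := hx.1
      positivity)
  have h1' : |∫ w in (0:ℝ)..b, ((1 - w ^ 2) * √(1 - w ^ 2)) * Real.cos (ω * w)| ≤
      33 / 2 * t ^ 5 := by
    refine h1.trans ?_
    rw [← hs, ← hs2']
    have e0 : (-3 : ℝ) * 0 * √(1 - 0 ^ 2) = 0 := by simp
    have e0' : (-3 : ℝ) * √(1 - 0 ^ 2) + 3 * 0 ^ 2 / √(1 - 0 ^ 2) = -3 := by simp
    rw [e0, e0', abs_zero, zero_div]
    have hω2 : 1 / ω ^ 2 = t ^ 4 := by
      have : t ^ 4 = (t ^ 2) ^ 2 := by ring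
      rw [this, htt, div_pow, one_pow]
    have hω3 : 1 / ω ^ 3 = t ^ 6 := by
      have : t ^ 6 = (t ^ 2) ^ 3 := by ring
      rw [this, htt, div_pow, one_pow]
    have e1 : |s ^ 2 * s| / ω ≤ 3 * t ^ 5 := by
      rw [abs_of_pos (by positivity)]
      calc s ^ 2 * s / ω = s ^ 3 * t ^ 2 := by rw [htt]; ring
        _ ≤ 3 * t ^ 3 * t ^ 2 := by gcongr
        _ = 3 * t ^ 5 := by ring
    have e2 : |-3 * b * s| / ω ^ 2 ≤ 9 / 2 * t ^ 5 := by
      have : |-3 * b * s| = 3 * b * s := by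
        rw [abs_mul, abs_mul, abs_of_pos hs0, abs_of_nonneg hb0]; norm_num
      rw [this]
      calc 3 * b * s / ω ^ 2 = 3 * b * s * t ^ 4 := by rw [← hω2]; ring
        _ ≤ 3 * 1 * (3 / 2 * t) * t ^ 4 := by gcongr
        _ = 9 / 2 * t ^ 5 := by ring
    have e3 : |-3 * s + 3 * b ^ 2 / s| ≤ 3 / t := by
      have : -3 * s + 3 * b ^ 2 / s = 3 * (b ^ 2 - s ^ 2) / s := by
        field_simp
        ring
      rw [this, abs_div, abs_mul, abs_of_pos hs0, abs_of_pos (by norm_num : (0:ℝ) < 3)]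
      have : |b ^ 2 - s ^ 2| ≤ 1 := by
        rw [abs_le]; constructor <;> nlinarith
      calc 3 * |b ^ 2 - s ^ 2| / s ≤ 3 * 1 / t := by gcongr
        _ = 3 / t := by ring
    have e4 : (|-3 * s + 3 * b ^ 2 / s| + (-3 * s + 3 * b ^ 2 / s - -3)) / ω ^ 3 ≤ 9 * t ^ 5 := by
      have h' : -3 * s + 3 * b ^ 2 / s ≤ 3 / t := (le_abs_self _).trans e3
      calc (|-3 * s + 3 * b ^ 2 / s| + (-3 * s + 3 * b ^ 2 / s - -3)) / ω ^ 3
          = (|-3 * s + 3 * b ^ 2 / s| + (-3 * s + 3 * b ^ 2 / s - -3)) * t ^ 6 := by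
            rw [← hω3]; ring
        _ ≤ (3 / t + (3 / t - -3)) * t ^ 6 := by gcongr
        _ = 6 * t ^ 5 + 3 * t ^ 6 := by field_simp; ring
        _ ≤ 9 * t ^ 5 := by
            have : t ^ 6 ≤ t ^ 5 := pow_le_pow_of_le_one ht0.le ht1 (by norm_num)
            linarith
    linarith
  have h2 : |∫ w in b..1, ((1 - w ^ 2) * √(1 - w ^ 2)) * Real.cos (ω * w)| ≤ 3 * t ^ 5 := by
    have := intervalIntegral.norm_integral_le_of_norm_le_const (a := b) (b := 1)
      (f := fun w => ((1 - w ^ 2) * √(1 - w ^ 2)) * Real.cos (ω * w)) (C := s ^ 3) (by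
      intro x hx
      rw [uIoc_of_le hb1.le] at hx
      have hx2 : x ^ 2 ≤ 1 := by nlinarith [hx.1, hx.2]
      have hx3 : 0 ≤ 1 - x ^ 2 := by linarith
      rw [norm_mul, Real.norm_eq_abs, Real.norm_eq_abs, abs_of_nonneg (by positivity)]
      have hle : √(1 - x ^ 2) ≤ s := by
        apply Real.sqrt_le_sqrt
        nlinarith [hx.1]
      calc (1 - x ^ 2) * √(1 - x ^ 2) * |Real.cos (ω * x)| ≤ (1 - x ^ 2) * √(1 - x ^ 2) * 1 := by
            gcongr; exact Real.abs_cos_le_one _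
        _ = √(1 - x ^ 2) ^ 3 := by
            rw [mul_one]
            have : √(1 - x ^ 2) ^ 2 = 1 - x ^ 2 := Real.sq_sqrt hx3
            calc (1 - x ^ 2) * √(1 - x ^ 2) = √(1 - x ^ 2) ^ 2 * √(1 - x ^ 2) := by rw [this]
              _ = √(1 - x ^ 2) ^ 3 := by ring
        _ ≤ s ^ 3 := by gcongr)
    rw [Real.norm_eq_abs] at this
    refine this.trans ?_
    rw [abs_of_nonneg (by linarith)]
    have : 1 - b = t ^ 2 := by rw [hb]; ring
    rw [this]
    calc s ^ 3 * t ^ 2 ≤ 3 * t ^ 3 * t ^ 2 := by gcongr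
      _ = 3 * t ^ 5 := by ring
  calc |(∫ w in (0:ℝ)..b, ((1 - w ^ 2) * √(1 - w ^ 2)) * Real.cos (ω * w)) +
        ∫ w in b..1, ((1 - w ^ 2) * √(1 - w ^ 2)) * Real.cos (ω * w)| ≤ _ := abs_add_le _ _
    _ ≤ 33 / 2 * t ^ 5 + 3 * t ^ 5 := by gcongr
    _ ≤ 20 * t ^ 5 := by nlinarith [pow_pos ht0 5]

end Pool.Agent.Helper65
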