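import Mathlib
import Pool.Agent.Helper65.Osc

/-!
# One-dimensional form of the Fourier transform of the Riesz mean of the disk
-/

open MeasureTheory Set

namespace Pool.Agent.Helper65

/-- `(a^2 - u^2)^(3/2)` for `|u| ≤ a` and `0` otherwise. -/
noncomputable def gK (a u : ℝ) : ℝ := (a ^ 2 - u ^ 2) * √(a ^ 2 - u ^ 2)

/-- The one-dimensional form of the Fourier transform of `(a^2 - |v|^2)_+`. -/
noncomputable def psi (a ρ : ℝ) : ℝ := 4 / 3 * ∫ u, gK a u * Real.cos (2 * Real.pi * ρ * u)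

/-- The derivative of `psi` in `a`. -/
noncomputable def dpsi (a ρ : ℝ) : ℝ :=
  4 * a * ∫ u, √(a ^ 2 - u ^ 2) * Real.cos (2 * Real.pi * ρ * u)

/-- An even function supported in `[-1,1]`. -/
theorem integral_even_unit {φ : ℝ → ℝ} (he : ∀ x, φ |x| = φ x) (h0 : ∀ x, 1 < x → φ x = 0) :
    ∫ x, φ x = 2 * ∫ x in (0:ℝ)..1, φ x := by
  have h1 : ∫ x, φ x = ∫ x, φ |x| := by simp_rw [he]
  rw [h1, integral_comp_abs, intervalIntegral.integral_of_le zero_le_one]
  congr 1
  apply MeasureTheory.setIntegral_eq_of_subset_of_forall_sdiff_eq_zero measurableSet_Ioi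
    Ioc_subset_Ioi_self
  intro x hx
  apply h0
  by_contra h
  exact hx.2 ⟨hx.1, not_lt.mp h⟩

theorem integral_scale {a : ℝ} (ha : 0 < a) (φ : ℝ → ℝ) :
    ∫ u, φ u = a * ∫ w, φ (a * w) := by
  rw [MeasureTheory.Measure.integral_comp_mul_left, abs_of_pos (inv_pos.mpr ha), smul_eq_mul,
    ← mul_assoc, mul_inv_cancel₀ ha.ne', one_mul]

theorem sqrt_scale {a : ℝ} (ha : 0 < a) (w : ℝ) :
    √(a ^ 2 - (a * w) ^ 2) = a * √(1 - w ^ 2) := by
  have : a ^ 2 - (a * w) ^ 2 = a ^ 2 * (1 - w ^ 2) := by ring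
  rw [this, Real.sqrt_mul (sq_nonneg a), Real.sqrt_sq ha.le]

theorem integral_J {a : ℝ} (ha : 0 < a) (ω : ℝ) :
    ∫ u, √(a ^ 2 - u ^ 2) * Real.cos (ω * u) =
      2 * a ^ 2 * ∫ w in (0:ℝ)..1, √(1 - w ^ 2) * Real.cos (ω * a * w) := by
  rw [integral_scale ha]
  have : ∀ w, √(a ^ 2 - (a * w) ^ 2) * Real.cos (ω * (a * w)) =
      a * (√(1 - w ^ 2) * Real.cos (ω * a * w)) := by
    intro w
    rw [sqrt_scale ha, ← mul_assoc ω a w]; ring
  simp_rw [this]
  rw [integral_const_mul, integral_even_unit]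
  · ring
  · intro x
    rw [sq_abs]
    congr 1
    rcases abs_choice x with h | h <;> rw [h]
    rw [mul_neg, Real.cos_neg]
  · intro x hx
    rw [Real.sqrt_eq_zero_of_nonpos (by nlinarith), zero_mul]

theorem integral_K {a : ℝ} (ha : 0 < a) (ω : ℝ) :
    ∫ u, gK a u * Real.cos (ω * u) =
      2 * a ^ 4 * ∫ w in (0:ℝ)..1, ((1 - w ^ 2) * √(1 - w ^ 2)) * Real.cos (ω * a * w) := by
  rw [integral_scale ha]
  have : ∀ w, gK a (a * w) * Real.cos (ω * (a * w)) =
      a ^ 3 * (((1 - w ^ 2) * √(1 - w ^ 2)) * Real.cos (ω * a * w)) := by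
    intro w
    rw [gK, sqrt_scale ha, ← mul_assoc ω a w]; ring
  simp_rw [this]
  rw [integral_const_mul, integral_even_unit]
  · ring
  · intro x
    rw [sq_abs]
    congr 1
    rcases abs_choice x with h | h <;> rw [h]
    rw [mul_neg, Real.cos_neg]
  · intro x hx
    rw [Real.sqrt_eq_zero_of_nonpos (by nlinarith), mul_zero, zero_mul]

theorem two_le {a ρ : ℝ} (ha : 1 ≤ a) (hρ : 1 ≤ ρ) : 2 ≤ 2 * Real.pi * ρ * a := by
  have h3 := Real.pi_gt_three
  have : 1 ≤ ρ * a := by nlinarith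
  nlinarith

theorem sqrt_le_aux {a ρ : ℝ} (ha : 1 ≤ a) (hρ : 1 ≤ ρ) :
    1 / √(2 * Real.pi * ρ * a) ≤ 1 / (√ρ * √a) := by
  have h3 := Real.pi_gt_three
  have h0 : 0 < √ρ * √a := by
    have : 0 < √ρ := Real.sqrt_pos.mpr (by linarith)
    have : 0 < √a := Real.sqrt_pos.mpr (by linarith)
    positivity
  apply one_div_le_one_div_of_le h0
  rw [← Real.sqrt_mul (by linarith)]
  apply Real.sqrt_le_sqrt
  have : 1 ≤ ρ * a := by nlinarith
  nlinarith

theorem psi_bound {a ρ : ℝ} (ha : 1 ≤ a) (hρ : 1 ≤ ρ) :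
    |psi a ρ| ≤ 54 * (√a) ^ 3 / (√ρ) ^ 5 := by
  have ha0 : 0 < a := by linarith
  have hsa : 0 < √a := Real.sqrt_pos.mpr ha0
  have hsρ : 0 < √ρ := Real.sqrt_pos.mpr (by linarith)
  rw [psi, integral_K ha0, abs_mul, abs_mul, abs_of_pos (by norm_num : (0:ℝ) < 4 / 3),
    abs_of_pos (by positivity : 0 < 2 * a ^ 4)]
  have h1 := K_half (two_le ha hρ)
  have h2 : (1 / √(2 * Real.pi * ρ * a)) ^ 5 ≤ (1 / (√ρ * √a)) ^ 5 :=
    pow_le_pow_left₀ (by positivity) (sqrt_le_aux ha hρ) 5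
  have haa : a ^ 4 = (√a) ^ 8 := by
    have : (√a) ^ 2 = a := Real.sq_sqrt ha0.le
    calc a ^ 4 = ((√a) ^ 2) ^ 4 := by rw [this]
      _ = _ := by ring
  calc 4 / 3 * (2 * a ^ 4 * |∫ w in (0:ℝ)..1, ((1 - w ^ 2) * √(1 - w ^ 2)) *
        Real.cos (2 * Real.pi * ρ * a * w)|)
      ≤ 4 / 3 * (2 * a ^ 4 * (20 * (1 / (√ρ * √a)) ^ 5)) := by
        gcongr
        exact h1.trans (by gcongr)
    _ = 160 / 3 * (√a) ^ 3 / (√ρ) ^ 5 := by
        rw [haa]; field_simp; ring
    _ ≤ 54 * (√a) ^ 3 / (√ρ) ^ 5 := by gcongr; norm_num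

theorem dpsi_bound {a ρ : ℝ} (ha : 1 ≤ a) (hρ : 1 ≤ ρ) :
    |dpsi a ρ| ≤ 40 * (√a) ^ 3 / (√ρ) ^ 3 := by
  have ha0 : 0 < a := by linarith
  have hsa : 0 < √a := Real.sqrt_pos.mpr ha0
  have hsρ : 0 < √ρ := Real.sqrt_pos.mpr (by linarith)
  rw [dpsi, integral_J ha0, abs_mul (4 * a), abs_mul (2 * a ^ 2),
    abs_of_pos (by positivity : 0 < 4 * a),
    abs_of_pos (by positivity : 0 < 2 * a ^ 2)]
  have h1 := J_half (two_le ha hρ)
  have h2 : (1 / √(2 * Real.pi * ρ * a)) ^ 3 ≤ (1 / (√ρ * √a)) ^ 3 :=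
    pow_le_pow_left₀ (by positivity) (sqrt_le_aux ha hρ) 3
  have haa : a ^ 3 = (√a) ^ 6 := by
    have : (√a) ^ 2 = a := Real.sq_sqrt ha0.le
    calc a ^ 3 = ((√a) ^ 2) ^ 3 := by rw [this]
      _ = _ := by ring
  calc 4 * a * (2 * a ^ 2 * |∫ w in (0:ℝ)..1, √(1 - w ^ 2) *
        Real.cos (2 * Real.pi * ρ * a * w)|)
      ≤ 4 * a * (2 * a ^ 2 * (5 * (1 / (√ρ * √a)) ^ 3)) := by
        gcongr
        exact h1.trans (by gcongr)
    _ = 40 * a ^ 3 * (1 / (√ρ * √a)) ^ 3 := by ring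
    _ = 40 * (√a) ^ 3 / (√ρ) ^ 3 := by
        rw [haa]; field_simp

theorem hasDerivAt_mul_sqrt (x : ℝ) : HasDerivAt (fun x => x * √x) (3 / 2 * √x) x := by
  rcases lt_trichotomy x 0 with h | h | h
  · have h1 : (fun x : ℝ => x * √x) =ᶠ[nhds x] fun _ => 0 := by
      filter_upwards [gt_mem_nhds h] with y hy
      rw [Real.sqrt_eq_zero_of_nonpos hy.le, mul_zero]
    rw [Real.sqrt_eq_zero_of_nonpos h.le, mul_zero]
    exact (hasDerivAt_const x 0).congr_of_eventuallyEq h1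
  · subst h
    rw [hasDerivAt_iff_tendsto_slope_zero]
    have h1 : Filter.Tendsto (fun t : ℝ => √t) (nhdsWithin 0 {0}ᶜ) (nhds (3 / 2 * √0)) := by
      rw [Real.sqrt_zero, mul_zero]
      have := (Real.continuous_sqrt.tendsto 0).mono_left (nhdsWithin_le_nhds (s := {0}ᶜ))
      rwa [Real.sqrt_zero] at this
    refine h1.congr' ?_
    filter_upwards [self_mem_nhdsWithin] with t ht
    have ht' : t ≠ 0 := ht
    rw [zero_add, zero_mul, sub_zero, smul_eq_mul]
    field_simp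
  · have := (hasDerivAt_id' x).mul (Real.hasDerivAt_sqrt h.ne')
    refine HasDerivAt.congr_deriv this ?_
    have h2 : √x ≠ 0 := (Real.sqrt_pos.mpr h).ne'
    have h3 : √x ^ 2 = x := Real.sq_sqrt h.le
    field_simp
    rw [h3]; ring

theorem gK_eq_zero {a u : ℝ} (h : a ^ 2 ≤ u ^ 2) : gK a u = 0 := by
  rw [gK, Real.sqrt_eq_zero_of_nonpos (by linarith), mul_zero]

theorem hasDerivAt_gK (a u : ℝ) : HasDerivAt (fun a => gK a u) (3 * a * √(a ^ 2 - u ^ 2)) a := by
  have h1 : HasDerivAt (fun a : ℝ => a ^ 2 - u ^ 2) (2 * a) a := by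
    simpa using (hasDerivAt_pow 2 a).sub_const (u ^ 2)
  have := (hasDerivAt_mul_sqrt (a ^ 2 - u ^ 2)).comp a h1
  refine HasDerivAt.congr_deriv this ?_
  ring

theorem integrable_of_zero {φ : ℝ → ℝ} (hc : Continuous φ) {B : ℝ}
    (h : ∀ u, B < |u| → φ u = 0) : Integrable φ := by
  apply hc.integrable_of_hasCompactSupport
  apply HasCompactSupport.of_support_subset_isCompact (isCompact_Icc (a := -B) (b := B))
  intro u hu
  rw [Function.mem_support] at hu
  have : |u| ≤ B := by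
    by_contra hh
    exact hu (h u (not_le.mp hh))
  exact abs_le.mp this

theorem sq_lt_of_abs {B a u : ℝ} (ha : |a| ≤ B) (hu : B < |u|) : a ^ 2 ≤ u ^ 2 := by
  rw [← sq_abs a, ← sq_abs u]
  have := abs_nonneg a
  nlinarith

theorem hasDerivAt_psi (a ρ : ℝ) : HasDerivAt (fun a => psi a ρ) (dpsi a ρ) a := by
  set B : ℝ := |a| + 1 with hB
  have hBpos : 0 < B := by positivity
  have hmem : ∀ x ∈ Metric.ball a 1, |x| ≤ B := by
    intro x hx
    rw [Metric.mem_ball, Real.dist_eq] at hx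
    have : |x| ≤ |x - a| + |a| := by
      calc |x| = |(x - a) + a| := by ring_nf
        _ ≤ _ := abs_add_le _ _
    linarith
  have key := hasDerivAt_integral_of_dominated_loc_of_deriv_le (μ := volume) (𝕜 := ℝ)
    (F := fun a u => gK a u * Real.cos (2 * Real.pi * ρ * u))
    (F' := fun a u => 3 * a * √(a ^ 2 - u ^ 2) * Real.cos (2 * Real.pi * ρ * u))
    (x₀ := a) (s := Metric.ball a 1)
    (bound := fun u => (Icc (-B) B).indicator (fun _ => 3 * B * B) u)
    (Metric.ball_mem_nhds a one_pos)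
    (Filter.Eventually.of_forall fun x => by
      apply Continuous.aestronglyMeasurable
      unfold gK; fun_prop)
    (by
      apply integrable_of_zero (B := B)
      · unfold gK; fun_prop
      · intro u hu
        rw [gK_eq_zero (sq_lt_of_abs (by linarith) hu), zero_mul])
    (by
      apply Continuous.aestronglyMeasurable
      fun_prop)
    (Filter.Eventually.of_forall fun u x hx => by
      have hxB := hmem x hx
      by_cases hu : u ∈ Icc (-B) B
      · rw [indicator_of_mem hu, norm_mul, norm_mul, Real.norm_eq_abs, Real.norm_eq_abs,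
          Real.norm_eq_abs, abs_mul, abs_of_pos (by norm_num : (0:ℝ) < 3),
          abs_of_nonneg (Real.sqrt_nonneg _)]
        have h1 : √(x ^ 2 - u ^ 2) ≤ B := by
          rw [← Real.sqrt_sq hBpos.le]
          apply Real.sqrt_le_sqrt
          have : x ^ 2 ≤ B ^ 2 := by
            rw [← sq_abs x]; exact pow_le_pow_left₀ (abs_nonneg _) hxB 2
          nlinarith [sq_nonneg u]
        calc 3 * |x| * √(x ^ 2 - u ^ 2) * |Real.cos (2 * Real.pi * ρ * u)|
            ≤ 3 * B * B * 1 := by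
              gcongr
              exact Real.abs_cos_le_one _
          _ = 3 * B * B := mul_one _
      · rw [indicator_of_notMem hu]
        have hu' : B < |u| := by
          by_contra hh
          exact hu (abs_le.mp (not_lt.mp hh))
        have := sq_lt_of_abs hxB hu'
        rw [Real.sqrt_eq_zero_of_nonpos (by linarith)]
        simp)
    (by
      rw [integrable_indicator_iff measurableSet_Icc]
      exact integrableOn_const (by simp))
    (Filter.Eventually.of_forall fun u x _ => (hasDerivAt_gK x u).mul_const _)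
  have h2 := key.2.const_mul (4 / 3 : ℝ)
  refine HasDerivAt.congr_deriv h2 ?_
  have : ∀ u, 3 * a * √(a ^ 2 - u ^ 2) * Real.cos (2 * Real.pi * ρ * u) =
    (3 * a) * (√(a ^ 2 - u ^ 2) * Real.cos (2 * Real.pi * ρ * u)) := fun u => by ring
  simp_rw [this]
  rw [integral_const_mul, dpsi]
  ring

theorem psi_sub_bound {a b ρ : ℝ} (ha : 1 ≤ a) (hab : a ≤ b) (hρ : 1 ≤ ρ) :
    |psi b ρ - psi a ρ| ≤ 40 * (√b) ^ 3 / (√ρ) ^ 3 * (b - a) := by
  have hsρ : 0 < √ρ := Real.sqrt_pos.mpr (by linarith)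
  have := Convex.norm_image_sub_le_of_norm_hasDerivWithin_le (𝕜 := ℝ)
    (f := fun a => psi a ρ) (f' := fun a => dpsi a ρ) (s := Icc a b) (x := a) (y := b)
    (C := 40 * (√b) ^ 3 / (√ρ) ^ 3)
    (fun x _ => (hasDerivAt_psi x ρ).hasDerivWithinAt)
    (fun x hx => by
      rw [Real.norm_eq_abs]
      refine (dpsi_bound (ha.trans hx.1) hρ).trans ?_
      gcongr
      exact hx.2)
    (convex_Icc a b) (left_mem_Icc.mpr hab) (right_mem_Icc.mpr hab)
  rw [Real.norm_eq_abs, Real.norm_eq_abs, abs_of_nonneg (by linarith : 0 ≤ b - a)] at this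
  exact this

/-- the value at `ρ = 0` -/
theorem integral_K_zero : ∫ w in (0:ℝ)..1, (1 - w ^ 2) * √(1 - w ^ 2) = 3 * Real.pi / 16 := by
  have := intervalIntegral.integral_eq_sub_of_hasDerivAt_of_le (a := (0:ℝ)) (b := 1)
    (f := fun w => (w * (5 - 2 * w ^ 2) * √(1 - w ^ 2) + 3 * Real.arcsin w) / 8)
    (f' := fun w => (1 - w ^ 2) * √(1 - w ^ 2)) zero_le_one
    (by
      apply Continuous.continuousOn
      fun_prop)
    (fun x hx => by
      have hpos : 0 < 1 - x ^ 2 := by nlinarith [hx.1, hx.2]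
      have hs := hasDerivAt_sqrt_one_sub_sq hpos
      have hsp := Real.sqrt_pos.mpr hpos
      have h1 : HasDerivAt (fun w : ℝ => w * (5 - 2 * w ^ 2)) (5 - 6 * x ^ 2) x := by
        have := (hasDerivAt_id' x).mul (((hasDerivAt_pow 2 x).const_mul 2).const_sub 5)
        refine HasDerivAt.congr_deriv this ?_
        norm_num; ring
      have h2 := Real.hasDerivAt_arcsin (x := x) (by linarith [hx.1]) (by linarith [hx.2])
      have := ((h1.mul hs).add (h2.const_mul 3)).div_const 8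
      refine HasDerivAt.congr_deriv this ?_
      have hsq : √(1 - x ^ 2) ^ 2 = 1 - x ^ 2 := Real.sq_sqrt hpos.le
      field_simp
      rw [hsq]
      ring)
    (Continuous.intervalIntegrable (by fun_prop) _ _)
  rw [this]
  simp [Real.arcsin_one]
  ring

theorem psi_zero {a : ℝ} (ha : 0 < a) : psi a 0 = Real.pi * a ^ 4 / 2 := by
  rw [psi]
  have := integral_K ha (2 * Real.pi * 0)
  rw [this]
  simp only [mul_zero, zero_mul, Real.cos_zero, mul_one]
  rw [integral_K_zero]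
  ring

end Pool.Agent.Helper65
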