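import Mathlib
import Pool.Agent.Helper65.Disk

/-!
# Two-dimensional Poisson summation for the Riesz mean of the disk
-/

open MeasureTheory Set FourierTransform

namespace Pool.Agent.Helper65

/-- `(a^2 - |v|^2)_+` -/
noncomputable def fd (a x y : ℝ) : ℝ := max (a ^ 2 - x ^ 2 - y ^ 2) 0

theorem poisson_one {f : ℝ → ℂ} (hc : Continuous f) {B : ℝ} (h : ∀ x, B < |x| → f x = 0)
    (hs : Summable fun n : ℤ => 𝓕 f n) : ∑' n : ℤ, f n = ∑' n : ℤ, 𝓕 f n := by
  have hO : f =O[Filter.cocompact ℝ] fun x => |x| ^ (-(2 : ℝ)) := by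
    have h0 : f =ᶠ[Filter.cocompact ℝ] fun _ => (0 : ℂ) := by
      have : (Icc (-B) B)ᶜ ∈ Filter.cocompact ℝ := isCompact_Icc.compl_mem_cocompact
      filter_upwards [this] with x hx
      apply h
      by_contra hh
      exact hx (abs_le.mp (not_lt.mp hh))
    exact (Asymptotics.isBigO_zero _ _).congr' h0.symm Filter.EventuallyEq.rfl
  have := Real.tsum_eq_tsum_fourier_of_rpow_decay_of_summable hc one_lt_two hO hs 0
  simpa using this

theorem fourier_even {φ : ℝ → ℝ} (hc : Continuous φ) {B : ℝ} (hB : ∀ u, B < |u| → φ u = 0)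
    (he : ∀ u, φ (-u) = φ u) (k : ℝ) :
    𝓕 (fun y => (φ y : ℂ)) k = ((∫ y, φ y * Real.cos (2 * Real.pi * k * y) : ℝ) : ℂ) := by
  rw [Real.fourier_real_eq]
  have h1 : ∀ v : ℝ, Real.fourierChar (-(v * k)) • (φ v : ℂ) =
      ((φ v * Real.cos (2 * Real.pi * k * v) : ℝ) : ℂ) -
      ((φ v * Real.sin (2 * Real.pi * k * v) : ℝ) : ℂ) * Complex.I := by
    intro v
    rw [Circle.smul_def, Real.fourierChar_apply, Complex.exp_mul_I]
    have e1 : ((2 * Real.pi * (-(v * k)) : ℝ) : ℂ) = -((2 * Real.pi * k * v : ℝ) : ℂ) := by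
      push_cast; ring
    rw [e1, Complex.cos_neg, Complex.sin_neg, ← Complex.ofReal_cos, ← Complex.ofReal_sin]
    push_cast
    rw [smul_eq_mul]
    ring
  simp_rw [h1]
  have hi1 : Integrable (fun v => φ v * Real.cos (2 * Real.pi * k * v)) :=
    integrable_of_zero (by fun_prop) (fun u hu => by rw [hB u hu, zero_mul])
  have hi2 : Integrable (fun v => φ v * Real.sin (2 * Real.pi * k * v)) :=
    integrable_of_zero (by fun_prop) (fun u hu => by rw [hB u hu, zero_mul])
  rw [integral_sub hi1.ofReal (hi2.ofReal.mul_const _), integral_mul_const,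
    integral_complex_ofReal, integral_complex_ofReal]
  have h0 : ∫ v, φ v * Real.sin (2 * Real.pi * k * v) = 0 := by
    have := integral_neg_eq_self (fun v => φ v * Real.sin (2 * Real.pi * k * v)) volume
    have h2 : ∀ v, φ (-v) * Real.sin (2 * Real.pi * k * (-v)) =
        -(φ v * Real.sin (2 * Real.pi * k * v)) := by
      intro v
      rw [he, mul_neg, Real.sin_neg]; ring
    simp_rw [h2] at this
    rw [integral_neg] at this
    linarith
  rw [h0]
  simp

theorem max_integral {c : ℝ} (hc : 0 ≤ c) (φ : ℝ → ℝ) :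
    ∫ y, max (c - y ^ 2) 0 * φ y = ∫ y in (-√c)..√c, (c - y ^ 2) * φ y := by
  have hs : 0 ≤ √c := Real.sqrt_nonneg c
  rw [intervalIntegral.integral_of_le (by linarith)]
  have h1 : ∫ y in Ioc (-√c) √c, (c - y ^ 2) * φ y = ∫ y in Ioc (-√c) √c, max (c - y ^ 2) 0 * φ y := by
    apply setIntegral_congr_fun measurableSet_Ioc
    intro y hy
    have : y ^ 2 ≤ c := by
      rw [← Real.sq_sqrt hc]
      nlinarith [hy.1, hy.2]
    simp only
    rw [max_eq_left (by linarith)]
  rw [h1]
  symm
  apply setIntegral_eq_integral_of_forall_compl_eq_zero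
  intro y hy
  have : c ≤ y ^ 2 := by
    by_contra hlt
    push Not at hlt
    apply hy
    have h2 : |y| < √c := by
      rw [← Real.sqrt_sq_eq_abs]
      exact Real.sqrt_lt_sqrt (sq_nonneg _) hlt
    exact ⟨(abs_lt.mp h2).1, (abs_lt.mp h2).2.le⟩
  rw [max_eq_right (by linarith), zero_mul]

theorem max_integral_cos_bound (c : ℝ) {ω : ℝ} (hω : 1 ≤ ω) :
    |∫ y, max (c - y ^ 2) 0 * Real.cos (ω * y)| ≤ (4 * √c + 4) / ω ^ 2 := by
  have hω0 : 0 < ω := by linarith
  rcases le_or_gt c 0 with hc | hc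
  · have : ∀ y : ℝ, max (c - y ^ 2) 0 * Real.cos (ω * y) = 0 := by
      intro y
      rw [max_eq_right (by nlinarith [sq_nonneg y]), zero_mul]
    simp_rw [this]
    rw [integral_zero, abs_zero]
    positivity
  · rw [max_integral hc.le]
    have h1 : ∫ y in (-√c)..√c, (c - y ^ 2) * Real.cos (ω * y) =
        ((c - (√c) ^ 2) * Real.sin (ω * √c) / ω - 2 * √c * Real.cos (ω * √c) / ω ^ 2 +
          2 * Real.sin (ω * √c) / ω ^ 3) -
        ((c - (-√c) ^ 2) * Real.sin (ω * (-√c)) / ω - 2 * (-√c) * Real.cos (ω * (-√c)) / ω ^ 2 +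
          2 * Real.sin (ω * (-√c)) / ω ^ 3) := by
      apply intervalIntegral.integral_eq_sub_of_hasDerivAt
        (f := fun y => (c - y ^ 2) * Real.sin (ω * y) / ω - 2 * y * Real.cos (ω * y) / ω ^ 2 +
          2 * Real.sin (ω * y) / ω ^ 3)
      · intro x _
        have hs : HasDerivAt (fun x => Real.sin (ω * x)) (Real.cos (ω * x) * ω) x := by
          simpa using ((hasDerivAt_id' x).const_mul ω).sin
        have hc' : HasDerivAt (fun x => Real.cos (ω * x)) (- Real.sin (ω * x) * ω) x := by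
          simpa using ((hasDerivAt_id' x).const_mul ω).cos
        have hp : HasDerivAt (fun y : ℝ => c - y ^ 2) (-(2 * x)) x := by
          simpa using (hasDerivAt_pow 2 x).const_sub c
        have h2 : HasDerivAt (fun y : ℝ => 2 * y) 2 x := by
          simpa using (hasDerivAt_id' x).const_mul (2 : ℝ)
        have := (((hp.mul hs).div_const ω).sub ((h2.mul hc').div_const (ω ^ 2))).add
          ((hs.const_mul 2).div_const (ω ^ 3))
        refine HasDerivAt.congr_deriv this ?_
        field_simp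
        ring
      · exact Continuous.intervalIntegrable (by fun_prop) _ _
    rw [h1]
    have hsq : √c ^ 2 = c := Real.sq_sqrt hc.le
    have h2 : ((c - (√c) ^ 2) * Real.sin (ω * √c) / ω - 2 * √c * Real.cos (ω * √c) / ω ^ 2 +
          2 * Real.sin (ω * √c) / ω ^ 3) -
        ((c - (-√c) ^ 2) * Real.sin (ω * (-√c)) / ω - 2 * (-√c) * Real.cos (ω * (-√c)) / ω ^ 2 +
          2 * Real.sin (ω * (-√c)) / ω ^ 3) =
        (-(4 * √c) * Real.cos (ω * √c) + 4 / ω * Real.sin (ω * √c)) / ω ^ 2 := by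
      rw [neg_sq, hsq, mul_neg, Real.sin_neg, Real.cos_neg]
      field_simp
      ring
    rw [h2, abs_div, abs_of_pos (pow_pos hω0 2)]
    gcongr
    refine (abs_add_le _ _).trans ?_
    rw [abs_mul, abs_mul, abs_neg, abs_of_nonneg (by positivity : 0 ≤ 4 * √c),
      abs_of_pos (by positivity : 0 < 4 / ω)]
    have e1 : 4 * √c * |Real.cos (ω * √c)| ≤ 4 * √c * 1 := by
      gcongr; exact Real.abs_cos_le_one _
    have e2 : 4 / ω * |Real.sin (ω * √c)| ≤ 4 * 1 := by
      gcongr
      · exact div_le_self (by norm_num) hω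
      · exact Real.abs_sin_le_one _
    linarith

theorem max_integral_one (c : ℝ) : ∫ y, max (c - y ^ 2) 0 = 4 / 3 * (c * √c) := by
  rcases le_or_gt c 0 with hc | hc
  · have : ∀ y : ℝ, max (c - y ^ 2) 0 = 0 := by
      intro y
      rw [max_eq_right (by nlinarith [sq_nonneg y])]
    simp_rw [this]
    rw [integral_zero, Real.sqrt_eq_zero_of_nonpos hc]
    simp
  · have h := max_integral hc.le (fun _ => (1 : ℝ))
    simp only [mul_one] at h
    rw [h]
    have hsq : √c ^ 2 = c := Real.sq_sqrt hc.le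
    rw [intervalIntegral.integral_sub (by simp) (Continuous.intervalIntegrable (by fun_prop) _ _),
      integral_pow, intervalIntegral.integral_const, smul_eq_mul]
    norm_num
    have h3 : √c ^ 3 = c * √c := by
      calc √c ^ 3 = √c ^ 2 * √c := by ring
        _ = _ := by rw [hsq]
    have h4 : (-√c) ^ 3 = -(c * √c) := by
      rw [← h3]; ring
    rw [h3, h4]
    ring

end Pool.Agent.Helper65
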