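import Mathlib
import Pool.Agent.Helper65.Poisson

/-!
# Two-dimensional Poisson summation for the Riesz mean of the disk, part 2
-/

open MeasureTheory Set FourierTransform

namespace Pool.Agent.Helper65

/-- partial cosine transform -/
noncomputable def gr (a x k : ℝ) : ℝ := ∫ y, fd a x y * Real.cos (2 * Real.pi * k * y)

theorem fd_nonneg (a x y : ℝ) : 0 ≤ fd a x y := le_max_right _ _

theorem fd_le (a x y : ℝ) : fd a x y ≤ a ^ 2 := by
  unfold fd
  apply max_le
  · nlinarith [sq_nonneg x, sq_nonneg y]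
  · positivity

theorem fd_neg_left (a x y : ℝ) : fd a (-x) y = fd a x y := by simp [fd]
theorem fd_neg_right (a x y : ℝ) : fd a x (-y) = fd a x y := by simp [fd]

theorem fd_zero_of_left {a x : ℝ} (y : ℝ) (h : |a| < |x|) : fd a x y = 0 := by
  unfold fd
  apply max_eq_right
  have : a ^ 2 ≤ x ^ 2 := by
    rw [← sq_abs a, ← sq_abs x]
    exact pow_le_pow_left₀ (abs_nonneg _) h.le 2
  nlinarith [sq_nonneg y]

theorem fd_zero_of_right {a y : ℝ} (x : ℝ) (h : |a| < |y|) : fd a x y = 0 := by
  unfold fd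
  apply max_eq_right
  have : a ^ 2 ≤ y ^ 2 := by
    rw [← sq_abs a, ← sq_abs y]
    exact pow_le_pow_left₀ (abs_nonneg _) h.le 2
  nlinarith [sq_nonneg x]

theorem continuous_fd_right (a x : ℝ) : Continuous (fd a x) := by
  unfold fd; fun_prop

theorem gr_bound (a x : ℝ) {k : ℤ} (hk : k ≠ 0) :
    |gr a x k| ≤ (4 * √(a ^ 2 - x ^ 2) + 4) * (1 / (k : ℝ) ^ 2) := by
  have h1 : ∀ y, fd a x y * Real.cos (2 * Real.pi * k * y) =
      max ((a ^ 2 - x ^ 2) - y ^ 2) 0 * Real.cos (2 * Real.pi * |(k:ℝ)| * y) := by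
    intro y
    rw [fd]
    congr 1
    rcases abs_choice (k : ℝ) with h | h
    · rw [h]
    · rw [h, ← Real.cos_neg]; congr 1; ring
  have hk1 : (1 : ℝ) ≤ |(k : ℝ)| := by
    rw [← Int.cast_abs]
    exact_mod_cast Int.one_le_abs hk
  have h3 := Real.pi_gt_three
  have hω : 1 ≤ 2 * Real.pi * |(k : ℝ)| := by nlinarith
  rw [gr]
  simp_rw [h1]
  refine (max_integral_cos_bound _ hω).trans ?_
  rw [div_eq_mul_one_div]
  have hk2 : 0 < (k:ℝ) ^ 2 := by positivity
  apply mul_le_mul_of_nonneg_left _ (by positivity)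
  apply one_div_le_one_div_of_le hk2
  rw [mul_pow, sq_abs]
  have h4 : 1 ≤ (2 * Real.pi) ^ 2 := by nlinarith
  nlinarith

theorem summable_gr (a x : ℝ) : Summable fun k : ℤ => gr a x k := by
  have h1 : Summable fun k : ℤ => (4 * √(a ^ 2 - x ^ 2) + 4) * (1 / (k : ℝ) ^ 2) :=
    (Real.summable_one_div_int_pow.mpr one_lt_two).mul_left _
  apply Summable.of_norm_bounded_eventually h1
  rw [Filter.eventually_cofinite]
  apply (Set.finite_singleton (0 : ℤ)).subset
  intro k hk
  rw [Set.mem_singleton_iff]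
  by_contra h
  apply hk
  rw [Real.norm_eq_abs]
  exact gr_bound a x h

theorem fourier_fd (a x k : ℝ) : 𝓕 (fun y => (fd a x y : ℂ)) k = ((gr a x k : ℝ) : ℂ) :=
  fourier_even (continuous_fd_right a x) (B := |a|) (fun _ hu => fd_zero_of_right x hu)
    (fun u => fd_neg_right a x u) k

theorem poisson_row (a x : ℝ) : ∑' n : ℤ, fd a x n = ∑' k : ℤ, gr a x k := by
  have h := poisson_one (f := fun y => (fd a x y : ℂ)) (B := |a|)
    (by have := continuous_fd_right a x; fun_prop)
    (fun u hu => by rw [fd_zero_of_right x hu]; simp)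
    (by
      simp_rw [fourier_fd]
      exact (Complex.ofRealCLM.summable (summable_gr a x)))
  simp_rw [fourier_fd] at h
  exact_mod_cast h

theorem continuous_gr (a k : ℝ) : Continuous fun x => gr a x k := by
  unfold gr
  apply continuous_of_dominated (bound := fun y => (Icc (-|a|) |a|).indicator (fun _ => a ^ 2) y)
  · intro x
    apply Continuous.aestronglyMeasurable
    have := continuous_fd_right a x
    fun_prop
  · intro x
    refine Filter.Eventually.of_forall fun y => ?_
    by_cases hy : y ∈ Icc (-|a|) |a|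
    · rw [indicator_of_mem hy, norm_mul, Real.norm_eq_abs, Real.norm_eq_abs,
        abs_of_nonneg (fd_nonneg _ _ _)]
      calc fd a x y * |Real.cos (2 * Real.pi * k * y)| ≤ fd a x y * 1 := by
            gcongr
            · exact fd_nonneg _ _ _
            · exact Real.abs_cos_le_one _
        _ ≤ a ^ 2 := by rw [mul_one]; exact fd_le _ _ _
    · rw [indicator_of_notMem hy]
      have : |a| < |y| := by
        by_contra hh
        exact hy (abs_le.mp (not_lt.mp hh))
      rw [fd_zero_of_right x this]; simp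
  · rw [integrable_indicator_iff measurableSet_Icc]
    exact integrableOn_const (by simp)
  · refine Filter.Eventually.of_forall fun y => ?_
    unfold fd; fun_prop

theorem gr_zero {a x : ℝ} (k : ℝ) (h : |a| < |x|) : gr a x k = 0 := by
  unfold gr
  simp_rw [fd_zero_of_left _ h]
  simp

/-- the plane integral, moved to `ℂ` -/
theorem integral_plane {H : ℝ → ℝ → ℝ} (hc : Continuous fun p : ℝ × ℝ => H p.1 p.2) {B : ℝ}
    (h1 : ∀ x y, B < |x| → H x y = 0) (h2 : ∀ x y, B < |y| → H x y = 0) :
    ∫ z : ℂ, H z.re z.im = ∫ x, ∫ y, H x y := by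
  have e1 := Complex.volume_preserving_equiv_real_prod.integral_comp
    (Complex.measurableEquivRealProd.measurableEmbedding) (fun p : ℝ × ℝ => H p.1 p.2)
  have e2 : ∀ z : ℂ, Complex.measurableEquivRealProd z = (z.re, z.im) := fun z => rfl
  simp only [e2] at e1
  rw [e1]
  apply integral_prod (fun p : ℝ × ℝ => H p.1 p.2)
  apply hc.integrable_of_hasCompactSupport
  apply HasCompactSupport.of_support_subset_isCompact
    (isCompact_Icc (a := ((-B, -B) : ℝ × ℝ)) (b := (B, B)))
  intro p hp
  rw [Function.mem_support] at hp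
  have hx : |p.1| ≤ B := by
    by_contra hh
    exact hp (h1 _ _ (not_le.mp hh))
  have hy : |p.2| ≤ B := by
    by_contra hh
    exact hp (h2 _ _ (not_le.mp hh))
  rw [abs_le] at hx hy
  exact ⟨⟨hx.1, hy.1⟩, ⟨hx.2, hy.2⟩⟩

theorem plane_rotate (a j k : ℝ) :
    ∫ z : ℂ, fd a z.re z.im * Real.cos (2 * Real.pi * (j * z.re + k * z.im)) =
    ∫ z : ℂ, fd a z.re z.im * Real.cos (2 * Real.pi * (√(j ^ 2 + k ^ 2) * z.re)) := by
  set ρ : ℝ := √(j ^ 2 + k ^ 2) with hρ
  have hρ2 : ρ ^ 2 = j ^ 2 + k ^ 2 := Real.sq_sqrt (by positivity)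
  rcases (Real.sqrt_nonneg (j ^ 2 + k ^ 2)).eq_or_lt with h0 | h0
  · have h0' : j ^ 2 + k ^ 2 = 0 := by
      rw [← hρ2, hρ, ← h0]; ring
    have hj : j = 0 := by nlinarith [sq_nonneg j, sq_nonneg k]
    have hk : k = 0 := by nlinarith [sq_nonneg j, sq_nonneg k]
    have hρ0 : ρ = 0 := by rw [hρ, ← h0]
    rw [hρ0, hj, hk]
    simp
  · have hρpos : 0 < ρ := h0
    have hnorm : ‖(⟨j / ρ, k / ρ⟩ : ℂ)‖ = 1 := by
      rw [Complex.norm_def, Complex.normSq_mk]
      have : j / ρ * (j / ρ) + k / ρ * (k / ρ) = 1 := by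
        field_simp
        rw [hρ2]
      rw [this, Real.sqrt_one]
    set c : Circle := ⟨(⟨j / ρ, k / ρ⟩ : ℂ), mem_sphere_zero_iff_norm.mpr hnorm⟩ with hc
    have hmp := (rotation c).measurePreserving
    have hme : MeasurableEmbedding (rotation c) :=
      (rotation c).toHomeomorph.measurableEmbedding
    have := hmp.integral_comp hme
      (fun z : ℂ => fd a z.re z.im * Real.cos (2 * Real.pi * (j * z.re + k * z.im)))
    rw [← this]
    congr 1
    ext z
    rw [rotation_apply]
    have hre : ((c : ℂ) * z).re = j / ρ * z.re - k / ρ * z.im := by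
      rw [Complex.mul_re]
    have him : ((c : ℂ) * z).im = j / ρ * z.im + k / ρ * z.re := by
      rw [Complex.mul_im]
    rw [hre, him]
    congr 1
    · unfold fd
      congr 1
      have : (j / ρ * z.re - k / ρ * z.im) ^ 2 + (j / ρ * z.im + k / ρ * z.re) ^ 2 =
          z.re ^ 2 + z.im ^ 2 := by
        have : (j / ρ * z.re - k / ρ * z.im) ^ 2 + (j / ρ * z.im + k / ρ * z.re) ^ 2 =
          (j ^ 2 + k ^ 2) / ρ ^ 2 * (z.re ^ 2 + z.im ^ 2) := by
          field_simp; ring
        rw [this, hρ2, div_self (by rw [← hρ2]; positivity), one_mul]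
      linarith
    · congr 2
      field_simp
      rw [hρ2]
      ring

theorem integral_gr (a j k : ℝ) :
    ∫ x, gr a x k * Real.cos (2 * Real.pi * j * x) = psi a √(j ^ 2 + k ^ 2) := by
  have hcf : Continuous fun p : ℝ × ℝ => fd a p.1 p.2 := by unfold fd; fun_prop
  have h1 : ∀ x, gr a x k * Real.cos (2 * Real.pi * j * x) =
      ∫ y, fd a x y * Real.cos (2 * Real.pi * (j * x + k * y)) := by
    intro x
    have hcx := continuous_fd_right a x
    have hi1 : Integrable (fun v => fd a x v * Real.cos (2 * Real.pi * k * v)) :=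
      integrable_of_zero (B := |a|) (by fun_prop)
        (fun u hu => by rw [fd_zero_of_right x hu, zero_mul])
    have hi2 : Integrable (fun v => fd a x v * Real.sin (2 * Real.pi * k * v)) :=
      integrable_of_zero (B := |a|) (by fun_prop)
        (fun u hu => by rw [fd_zero_of_right x hu, zero_mul])
    have h0 : ∫ v, fd a x v * Real.sin (2 * Real.pi * k * v) = 0 := by
      have := integral_neg_eq_self (fun v => fd a x v * Real.sin (2 * Real.pi * k * v)) volume
      have h2 : ∀ v, fd a x (-v) * Real.sin (2 * Real.pi * k * (-v)) =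
          -(fd a x v * Real.sin (2 * Real.pi * k * v)) := by
        intro v
        rw [fd_neg_right, mul_neg, Real.sin_neg]; ring
      simp_rw [h2] at this
      rw [integral_neg] at this
      linarith
    have h2 : ∀ y, fd a x y * Real.cos (2 * Real.pi * (j * x + k * y)) =
        (fd a x y * Real.cos (2 * Real.pi * k * y)) * Real.cos (2 * Real.pi * j * x) -
        (fd a x y * Real.sin (2 * Real.pi * k * y)) * Real.sin (2 * Real.pi * j * x) := by
      intro y
      have : 2 * Real.pi * (j * x + k * y) = 2 * Real.pi * k * y + 2 * Real.pi * j * x := by ring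
      rw [this, Real.cos_add]
      ring
    simp_rw [h2]
    rw [integral_sub (hi1.mul_const _) (hi2.mul_const _), integral_mul_const, integral_mul_const,
      h0, zero_mul, sub_zero, gr]
  simp_rw [h1]
  rw [← integral_plane (H := fun x y => fd a x y * Real.cos (2 * Real.pi * (j * x + k * y)))
    (B := |a|) (hcf.mul (by fun_prop)) (fun x y h => by rw [fd_zero_of_left y h, zero_mul])
    (fun x y h => by rw [fd_zero_of_right x h, zero_mul]), plane_rotate]
  rw [integral_plane (H := fun x _y => fd a x _y * Real.cos (2 * Real.pi * (√(j ^ 2 + k ^ 2) * x)))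
    (B := |a|) (hcf.mul (by fun_prop)) (fun x y h => by rw [fd_zero_of_left y h, zero_mul])
    (fun x y h => by rw [fd_zero_of_right x h, zero_mul])]
  rw [psi, ← integral_const_mul]
  congr 1
  ext x
  rw [integral_mul_const]
  have : ∫ y, fd a x y = 4 / 3 * ((a ^ 2 - x ^ 2) * √(a ^ 2 - x ^ 2)) := max_integral_one _
  rw [this, gK, ← mul_assoc (2 * Real.pi)]
  ring

end Pool.Agent.Helper65
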