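import Mathlib
import Pool.Agent.Helper65.Poisson2

/-!
# Averages of the error term in the circle problem
-/

open MeasureTheory Set FourierTransform Finset

namespace Pool.Agent.Helper65

/-- summation over boxes -/
theorem box_sum_le {F : ℤ × ℤ → ℝ} {h : ℕ → ℝ} {D : ℝ}
    (hF0 : ∀ p, 0 ≤ F p) (hF : ∀ p, F p ≤ h (max p.1.natAbs p.2.natAbs))
    (hD : ∀ M, ∑ n ∈ range M, ((box n : Finset (ℤ × ℤ)).card : ℝ) * h n ≤ D)
    (S : Finset (ℤ × ℤ)) : ∑ p ∈ S, F p ≤ D := by
  classical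
  set M := (S.sup fun p => max p.1.natAbs p.2.natAbs) + 1 with hM
  have hsub : S ⊆ (range M).biUnion fun n => (box n : Finset (ℤ × ℤ)) := by
    intro p hp
    rw [Finset.mem_biUnion]
    refine ⟨max p.1.natAbs p.2.natAbs, ?_, Int.mem_box.mpr rfl⟩
    rw [Finset.mem_range, hM, Nat.lt_succ_iff]
    exact Finset.le_sup (f := fun p : ℤ × ℤ => max p.1.natAbs p.2.natAbs) hp
  calc ∑ p ∈ S, F p ≤ ∑ p ∈ (range M).biUnion fun n => (box n : Finset (ℤ × ℤ)), F p :=
        Finset.sum_le_sum_of_subset_of_nonneg hsub (fun p _ _ => hF0 p)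
    _ = ∑ n ∈ range M, ∑ p ∈ (box n : Finset (ℤ × ℤ)), F p := by
        apply Finset.sum_biUnion
        intro i _ j _ hij
        rw [Function.onFun, Finset.disjoint_left]
        intro p hp hp'
        rw [Int.mem_box] at hp hp'
        exact hij (hp.symm.trans hp')
    _ ≤ ∑ n ∈ range M, ((box n : Finset (ℤ × ℤ)).card : ℝ) * h n := by
        apply Finset.sum_le_sum
        intro n _
        rw [← nsmul_eq_mul]
        apply Finset.sum_le_card_nsmul
        intro p hp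
        rw [Int.mem_box] at hp
        rw [← hp]
        exact hF p
    _ ≤ D := hD M

/-- the weight `min (n^(-5/2)) (δ n^(-3/2))` -/
noncomputable def wt (δ : ℝ) (n : ℕ) : ℝ := min (1 / (√(n : ℝ)) ^ 5) (δ / (√(n : ℝ)) ^ 3)

theorem wt_step {e s r : ℝ} (he : 0 < e) (hr : 0 ≤ r) (hs : 0 < s) (hsr : s ^ 2 = r ^ 2 + 1) :
    s ^ 2 * min (1 / s ^ 5) (e ^ 2 / s ^ 3) ≤ 8 * e / (1 + e * r) - 8 * e / (1 + e * s) := by
  have h1 : 0 < 1 + e * r := by positivity
  have h2 : 0 < 1 + e * s := by positivity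
  have hrs : r ≤ s := by nlinarith
  have h3 : 8 * e / (1 + e * r) - 8 * e / (1 + e * s) =
      8 * e ^ 2 * (s - r) / ((1 + e * r) * (1 + e * s)) := by
    field_simp
    ring
  have h4 : 1 / (2 * s) ≤ s - r := by
    rw [div_le_iff₀ (by positivity)]
    nlinarith
  have h5 : 4 * e ^ 2 / (s * (1 + e * s) ^ 2) ≤
      8 * e / (1 + e * r) - 8 * e / (1 + e * s) := by
    rw [h3]
    calc 4 * e ^ 2 / (s * (1 + e * s) ^ 2) =
        8 * e ^ 2 * (1 / (2 * s)) / ((1 + e * s) * (1 + e * s)) := by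
          field_simp; ring
      _ ≤ 8 * e ^ 2 * (s - r) / ((1 + e * r) * (1 + e * s)) := by
          gcongr
  refine le_trans ?_ h5
  rcases le_or_gt (e * s) 1 with h6 | h6
  · calc s ^ 2 * min (1 / s ^ 5) (e ^ 2 / s ^ 3) ≤ s ^ 2 * (e ^ 2 / s ^ 3) := by
          gcongr; exact min_le_right _ _
      _ = 4 * e ^ 2 / (s * 2 ^ 2) := by field_simp; norm_num
      _ ≤ 4 * e ^ 2 / (s * (1 + e * s) ^ 2) := by
          gcongr
          linarith
  · calc s ^ 2 * min (1 / s ^ 5) (e ^ 2 / s ^ 3) ≤ s ^ 2 * (1 / s ^ 5) := by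
          gcongr; exact min_le_left _ _
      _ = 4 * e ^ 2 / (s * (2 * (e * s)) ^ 2) := by field_simp; norm_num
      _ ≤ 4 * e ^ 2 / (s * (1 + e * s) ^ 2) := by
          gcongr
          linarith

theorem wt_sum {δ : ℝ} (hδ : 0 < δ) (M : ℕ) :
    ∑ n ∈ range M, ((box n : Finset (ℤ × ℤ)).card : ℝ) * wt δ n ≤ 64 * √δ := by
  set e : ℝ := √δ with he
  have he0 : 0 < e := Real.sqrt_pos.mpr hδ
  have he2 : e ^ 2 = δ := Real.sq_sqrt hδ.le
  have key : ∀ M : ℕ, ∑ n ∈ range (M + 1), ((box n : Finset (ℤ × ℤ)).card : ℝ) * wt δ n ≤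
      8 * (8 * e - 8 * e / (1 + e * √(M : ℝ))) := by
    intro M
    induction M with
    | zero => simp [wt]
    | succ M ih =>
      rw [Finset.sum_range_succ]
      have hcard : ((box (M + 1) : Finset (ℤ × ℤ)).card : ℝ) = 8 * ((M + 1 : ℕ) : ℝ) := by
        rw [Int.card_box (Nat.succ_ne_zero M)]; push_cast; ring
      rw [hcard]
      have hs : 0 < √((M + 1 : ℕ) : ℝ) := Real.sqrt_pos.mpr (by positivity)
      have hs2 : √((M + 1 : ℕ) : ℝ) ^ 2 = ((M + 1 : ℕ) : ℝ) := Real.sq_sqrt (by positivity)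
      have hr2 : √(M : ℝ) ^ 2 = (M : ℝ) := Real.sq_sqrt (by positivity)
      have := wt_step he0 (Real.sqrt_nonneg (M : ℝ)) hs (by rw [hs2, hr2]; push_cast; ring)
      rw [hs2, he2] at this
      have hw : wt δ (M + 1) =
        min (1 / √((M + 1 : ℕ) : ℝ) ^ 5) (δ / √((M + 1 : ℕ) : ℝ) ^ 3) := rfl
      rw [hw]
      nlinarith
  rcases M with _ | M
  · simp; positivity
  · refine (key M).trans ?_
    have : 0 ≤ 8 * e / (1 + e * √(M : ℝ)) := by positivity
    linarith

/-- the norm of a lattice point -/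
noncomputable def rad (p : ℤ × ℤ) : ℝ := √((p.1 : ℝ) ^ 2 + (p.2 : ℝ) ^ 2)

theorem max_le_rad (p : ℤ × ℤ) : ((max p.1.natAbs p.2.natAbs : ℕ) : ℝ) ≤ rad p := by
  rw [Nat.cast_max, rad]
  apply max_le
  · rw [Nat.cast_natAbs, Int.cast_abs]
    apply Real.abs_le_sqrt
    nlinarith [sq_nonneg (p.2 : ℝ)]
  · rw [Nat.cast_natAbs, Int.cast_abs]
    apply Real.abs_le_sqrt
    nlinarith [sq_nonneg (p.1 : ℝ)]

theorem one_le_max {p : ℤ × ℤ} (hp : p ≠ 0) : 1 ≤ max p.1.natAbs p.2.natAbs := by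
  by_contra h
  push Not at h
  have h1 : p.1.natAbs = 0 := by omega
  have h2 : p.2.natAbs = 0 := by omega
  apply hp
  ext
  · simpa using h1
  · simpa using h2

theorem psi_le_wt {a : ℝ} (ha : 1 ≤ a) {p : ℤ × ℤ} (hp : p ≠ 0) :
    |psi a (rad p)| ≤ 54 * (√a) ^ 3 * wt 1 (max p.1.natAbs p.2.natAbs) := by
  have h1 : (1 : ℝ) ≤ ((max p.1.natAbs p.2.natAbs : ℕ) : ℝ) := by exact_mod_cast one_le_max hp
  have h2 := max_le_rad p
  set N : ℝ := ((max p.1.natAbs p.2.natAbs : ℕ) : ℝ) with hN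
  have hsN : 1 ≤ √N := Real.one_le_sqrt.mpr h1
  have h3 : √N ≤ √(rad p) := Real.sqrt_le_sqrt h2
  have hw : wt 1 (max p.1.natAbs p.2.natAbs) = 1 / (√N) ^ 5 := by
    rw [wt, ← hN]
    apply min_eq_left
    apply one_div_le_one_div_of_le (by positivity)
    exact pow_le_pow_right₀ hsN (by norm_num)
  rw [hw]
  refine (psi_bound ha (h1.trans h2)).trans ?_
  rw [mul_one_div]
  gcongr

theorem psi_sub_le_wt {a b : ℝ} (ha : 1 ≤ a) (hab : a ≤ b) {p : ℤ × ℤ} (hp : p ≠ 0) :
    |psi b (rad p) - psi a (rad p)| ≤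
      108 * (√b) ^ 3 * wt (b - a) (max p.1.natAbs p.2.natAbs) := by
  have h1 : (1 : ℝ) ≤ ((max p.1.natAbs p.2.natAbs : ℕ) : ℝ) := by exact_mod_cast one_le_max hp
  have h2 := max_le_rad p
  rw [wt]
  set N : ℝ := ((max p.1.natAbs p.2.natAbs : ℕ) : ℝ) with hN
  have hsN : 0 < √N := Real.sqrt_pos.mpr (by linarith)
  have h3 : √N ≤ √(rad p) := Real.sqrt_le_sqrt h2
  have hρ : 1 ≤ rad p := h1.trans h2
  have hsb : √a ≤ √b := Real.sqrt_le_sqrt hab
  rw [mul_min_of_nonneg _ _ (by positivity)]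
  apply le_min
  · calc |psi b (rad p) - psi a (rad p)| ≤ |psi b (rad p)| + |psi a (rad p)| := abs_sub _ _
      _ ≤ 54 * (√b) ^ 3 / (√(rad p)) ^ 5 + 54 * (√a) ^ 3 / (√(rad p)) ^ 5 :=
          add_le_add (psi_bound (ha.trans hab) hρ) (psi_bound ha hρ)
      _ ≤ 54 * (√b) ^ 3 / (√(rad p)) ^ 5 + 54 * (√b) ^ 3 / (√(rad p)) ^ 5 := by gcongr
      _ = 108 * (√b) ^ 3 / (√(rad p)) ^ 5 := by ring
      _ ≤ 108 * (√b) ^ 3 / (√N) ^ 5 := by gcongr
      _ = _ := by rw [mul_one_div]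
  · have hba : 0 ≤ b - a := by linarith
    calc |psi b (rad p) - psi a (rad p)| ≤ 40 * (√b) ^ 3 / (√(rad p)) ^ 3 * (b - a) :=
          psi_sub_bound ha hab hρ
      _ ≤ 108 * (√b) ^ 3 / (√N) ^ 3 * (b - a) := by gcongr; norm_num
      _ = _ := by ring

theorem summable_psi {a : ℝ} (ha : 1 ≤ a) : Summable fun p : ℤ × ℤ => psi a (rad p) := by
  classical
  have h1 : Summable fun p : ℤ × ℤ => if p = 0 then 0 else |psi a (rad p)| := by
    apply summable_of_sum_le (c := 54 * (√a) ^ 3 * (64 * √1))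
    · intro p
      simp only [Pi.zero_apply]
      split_ifs
      · exact le_rfl
      · exact abs_nonneg _
    · apply box_sum_le (h := fun n => 54 * (√a) ^ 3 * wt 1 n)
      · intro p
        split_ifs
        · exact le_rfl
        · exact abs_nonneg _
      · intro p
        split_ifs with hp
        · have : 0 ≤ wt 1 (max p.1.natAbs p.2.natAbs) := by
            unfold wt; apply le_min <;> positivity
          positivity
        · exact psi_le_wt ha hp
      · intro M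
        have := wt_sum one_pos M
        calc ∑ n ∈ range M, ((box n : Finset (ℤ × ℤ)).card : ℝ) * (54 * (√a) ^ 3 * wt 1 n)
            = 54 * (√a) ^ 3 * ∑ n ∈ range M, ((box n : Finset (ℤ × ℤ)).card : ℝ) * wt 1 n := by
              rw [Finset.mul_sum]
              apply Finset.sum_congr rfl
              intro n _; ring
          _ ≤ _ := by gcongr
  apply Summable.of_norm
  have h2 : Summable fun p : ℤ × ℤ => if p = 0 then |psi a (rad p)| else 0 := by
    apply summable_of_hasFiniteSupport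
    apply (Set.finite_singleton (0 : ℤ × ℤ)).subset
    intro p hp
    rw [Function.mem_support] at hp
    rw [Set.mem_singleton_iff]
    by_contra h
    exact hp (if_neg h)
  refine (h1.add h2).congr ?_
  intro p
  rw [Real.norm_eq_abs]
  split_ifs <;> simp

/-- the Riesz mean -/
noncomputable def rm (a : ℝ) : ℝ := ∑' p : ℤ × ℤ, fd a p.1 p.2

theorem fd_int_zero {a : ℝ} {M : ℤ} (hM : |a| < M) {p : ℤ × ℤ}
    (hp : p ∉ Finset.Icc (-M) M ×ˢ Finset.Icc (-M) M) : fd a p.1 p.2 = 0 := by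
  rw [Finset.mem_product, Finset.mem_Icc, Finset.mem_Icc, not_and_or] at hp
  rcases hp with hp | hp
  · apply fd_zero_of_left
    have : M < |p.1| := by
      by_contra h
      exact hp (abs_le.mp (not_lt.mp h))
    have h2 : (M : ℝ) < |(p.1 : ℝ)| := by
      rw [← Int.cast_abs]; exact_mod_cast this
    linarith
  · apply fd_zero_of_right
    have : M < |p.2| := by
      by_contra h
      exact hp (abs_le.mp (not_lt.mp h))
    have h2 : (M : ℝ) < |(p.2 : ℝ)| := by
      rw [← Int.cast_abs]; exact_mod_cast this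
    linarith

theorem fourier_gr (a k j : ℝ) :
    𝓕 (fun x => (gr a x k : ℂ)) j = ((psi a √(j ^ 2 + k ^ 2) : ℝ) : ℂ) := by
  rw [fourier_even (continuous_gr a k) (B := |a|) (fun u hu => gr_zero k hu)
    (fun u => by unfold gr; simp_rw [fd_neg_left]), integral_gr]

/-- Poisson summation in the plane -/
theorem poisson_plane {a : ℝ} (ha : 1 ≤ a) : rm a = ∑' p : ℤ × ℤ, psi a (rad p) := by
  obtain ⟨M, hM⟩ : ∃ M : ℤ, |a| < M := exists_int_gt _
  have hsum : Summable fun p : ℤ × ℤ => fd a p.1 p.2 := by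
    apply summable_of_hasFiniteSupport
    apply (Finset.Icc (-M) M ×ˢ Finset.Icc (-M) M).finite_toSet.subset
    intro p hp
    rw [Function.mem_support] at hp
    by_contra h
    exact hp (fd_int_zero hM h)
  have h1 : rm a = ∑' m : ℤ, ∑' n : ℤ, fd a m n := by
    rw [rm]; exact hsum.tsum_prod
  have h2 : ∑' m : ℤ, ∑' n : ℤ, fd a m n = ∑' m : ℤ, ∑' k : ℤ, gr a m k :=
    tsum_congr fun m => poisson_row a m
  have hz : ∀ m ∉ Finset.Icc (-M) M, ∀ k : ℝ, gr a (m : ℤ) k = 0 := by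
    intro m hm k
    apply gr_zero
    rw [Finset.mem_Icc] at hm
    have : M < |m| := by
      by_contra h
      exact hm (abs_le.mp (not_lt.mp h))
    have h2 : (M : ℝ) < |(m : ℝ)| := by
      rw [← Int.cast_abs]; exact_mod_cast this
    linarith
  have h3 : ∑' m : ℤ, ∑' k : ℤ, gr a m k = ∑ m ∈ Finset.Icc (-M) M, ∑' k : ℤ, gr a m k := by
    apply tsum_eq_sum
    intro m hm
    simp_rw [hz m hm]
    exact tsum_zero
  have h4 : ∑ m ∈ Finset.Icc (-M) M, ∑' k : ℤ, gr a m k =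
      ∑' k : ℤ, ∑ m ∈ Finset.Icc (-M) M, gr a m k := by
    rw [Summable.tsum_finsetSum]
    intro m _
    exact summable_gr a m
  have hs := summable_psi ha
  have h5 : ∀ k : ℤ, ∑ m ∈ Finset.Icc (-M) M, gr a m k = ∑' j : ℤ, psi a (rad (k, j)) := by
    intro k
    have e1 : ∑ m ∈ Finset.Icc (-M) M, gr a m k = ∑' m : ℤ, gr a m k := by
      symm
      apply tsum_eq_sum
      intro m hm
      exact hz m hm k
    rw [e1]
    have hrad : ∀ j : ℤ, rad (k, j) = √((j : ℝ) ^ 2 + (k : ℝ) ^ 2) := by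
      intro j
      rw [rad, add_comm]
    have hsk : Summable fun j : ℤ => psi a √((j : ℝ) ^ 2 + (k : ℝ) ^ 2) := by
      have := hs.prod_factor k
      refine this.congr ?_
      intro j
      rw [hrad]
    have h := poisson_one (f := fun x => (gr a x k : ℂ)) (B := |a|)
      (by have := continuous_gr a k; fun_prop)
      (fun u hu => by rw [gr_zero _ hu]; simp)
      (by
        simp_rw [fourier_gr]
        exact Complex.ofRealCLM.summable hsk)
    simp_rw [fourier_gr] at h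
    simp_rw [hrad]
    exact_mod_cast h
  rw [h1, h2, h3, h4]
  simp_rw [h5]
  exact hs.tsum_prod.symm

end Pool.Agent.Helper65
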