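import Mathlib
import Pool.Agent.Helper65.Circle

/-!
# Averages of the error term in the circle problem
-/

open MeasureTheory Set Finset

namespace Pool.Agent.Helper65

/-- number of lattice points in the closed disk -/
noncomputable def cnt (r : ℝ) : ℝ :=
  (Nat.card {p : ℤ × ℤ // (p.1 : ℝ) ^ 2 + (p.2 : ℝ) ^ 2 ≤ r ^ 2} : ℝ)

/-- the error term -/
noncomputable def err (r : ℝ) : ℝ := cnt r - Real.pi * r ^ 2

open Classical in
theorem cnt_eq_sum {b : ℝ} {M : ℤ} (hM : |b| < M) {r : ℝ} (hr : |r| ≤ |b|) :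
    cnt r = ∑ p ∈ Finset.Icc (-M) M ×ˢ Finset.Icc (-M) M,
      if (p.1 : ℝ) ^ 2 + (p.2 : ℝ) ^ 2 ≤ r ^ 2 then (1 : ℝ) else 0 := by
  rw [cnt, Finset.sum_boole]
  congr 1
  apply Nat.subtype_card
  intro p
  rw [Finset.mem_filter, and_iff_right_iff_imp]
  intro hp
  have hrb : r ^ 2 ≤ b ^ 2 := sq_le_sq.mpr hr
  have hbM : b ^ 2 < (M : ℝ) ^ 2 := by
    rw [← sq_abs b]
    exact pow_lt_pow_left₀ hM (abs_nonneg _) (by norm_num)
  have hM0 : (0 : ℝ) ≤ M := (abs_nonneg b).trans hM.le
  rw [Finset.mem_product, Finset.mem_Icc, Finset.mem_Icc, ← abs_le, ← abs_le]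
  constructor
  · have h1 : (p.1 : ℝ) ^ 2 ≤ (M : ℝ) ^ 2 := by nlinarith [sq_nonneg (p.2 : ℝ)]
    have := abs_le_of_sq_le_sq h1 hM0
    rw [← Int.cast_abs] at this
    exact_mod_cast this
  · have h1 : (p.2 : ℝ) ^ 2 ≤ (M : ℝ) ^ 2 := by nlinarith [sq_nonneg (p.1 : ℝ)]
    have := abs_le_of_sq_le_sq h1 hM0
    rw [← Int.cast_abs] at this
    exact_mod_cast this

theorem ftc_pt_int {q : ℝ} (a b : ℝ) :
    IntervalIntegrable (fun r : ℝ => if q ≤ r ^ 2 then 2 * r else 0) volume a b := by
  have h1 : (fun r : ℝ => if q ≤ r ^ 2 then 2 * r else 0) =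
      indicator {r : ℝ | q ≤ r ^ 2} (fun r => 2 * r) := by
    ext r
    simp only [indicator, Set.mem_ofPred_eq]
  rw [h1]
  have hm : MeasurableSet {r : ℝ | q ≤ r ^ 2} :=
    (isClosed_le continuous_const (by fun_prop)).measurableSet
  have h2 : IntervalIntegrable (fun r : ℝ => 2 * r) volume a b :=
    Continuous.intervalIntegrable (by fun_prop) _ _
  rw [intervalIntegrable_iff] at h2 ⊢
  exact h2.indicator hm

theorem ftc_pt {q a b : ℝ} (hab : a ≤ b) :
    ∫ r in a..b, (if q ≤ r ^ 2 then 2 * r else 0) = max (b ^ 2 - q) 0 - max (a ^ 2 - q) 0 := by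
  apply integral_eq_of_hasDerivAt_off_countable (fun r => max (r ^ 2 - q) 0)
    (fun r => if q ≤ r ^ 2 then 2 * r else 0) (s := {r : ℝ | r ^ 2 = q})
  · apply Set.Finite.countable
    apply ((Set.finite_singleton (√q)).union (Set.finite_singleton (-√q))).subset
    intro r hr
    have hr' : r ^ 2 = q := hr
    rw [← hr', Real.sqrt_sq_eq_abs]
    rcases abs_choice r with h | h
    · left; rw [Set.mem_singleton_iff, h]
    · right; rw [Set.mem_singleton_iff, h, neg_neg]
  · apply Continuous.continuousOn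
    fun_prop
  · intro x hx
    rw [min_eq_left hab, max_eq_right hab] at hx
    have hxq : x ^ 2 ≠ q := hx.2
    rcases lt_or_gt_of_ne hxq with h | h
    · rw [if_neg (not_le.mpr h)]
      have h1 : (fun r : ℝ => max (r ^ 2 - q) 0) =ᶠ[nhds x] fun _ => 0 := by
        have hc : ContinuousAt (fun r : ℝ => r ^ 2) x := by fun_prop
        filter_upwards [hc.eventually_lt_const h] with y hy
        exact max_eq_right (by linarith)
      exact (hasDerivAt_const x 0).congr_of_eventuallyEq h1
    · rw [if_pos h.le]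
      have h1 : (fun r : ℝ => max (r ^ 2 - q) 0) =ᶠ[nhds x] fun r => r ^ 2 - q := by
        have hc : ContinuousAt (fun r : ℝ => r ^ 2) x := by fun_prop
        filter_upwards [hc.eventually_const_lt h] with y hy
        exact max_eq_left (by linarith)
      have h2 : HasDerivAt (fun r : ℝ => r ^ 2 - q) (2 * x) x := by
        simpa using (hasDerivAt_pow 2 x).sub_const q
      exact h2.congr_of_eventuallyEq h1
  · exact ftc_pt_int a b

theorem rm_eq_sum {a : ℝ} {M : ℤ} (hM : |a| < M) :
    rm a = ∑ p ∈ Finset.Icc (-M) M ×ˢ Finset.Icc (-M) M, fd a p.1 p.2 :=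
  tsum_eq_sum fun _ hp => fd_int_zero hM hp

theorem integral_cnt {a b : ℝ} (ha : 0 ≤ a) (hab : a ≤ b) :
    ∫ r in a..b, cnt r * (2 * r) = rm b - rm a := by
  classical
  obtain ⟨M, hM⟩ : ∃ M : ℤ, |b| < M := exists_int_gt _
  have hb : 0 ≤ b := ha.trans hab
  have hMa : |a| < M := by
    rw [abs_of_nonneg ha]; rw [abs_of_nonneg hb] at hM; linarith
  have h1 : ∫ r in a..b, cnt r * (2 * r) =
      ∫ r in a..b, ∑ p ∈ Finset.Icc (-M) M ×ˢ Finset.Icc (-M) M,
        (if (p.1 : ℝ) ^ 2 + (p.2 : ℝ) ^ 2 ≤ r ^ 2 then 2 * r else 0) := by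
    apply intervalIntegral.integral_congr
    intro r hr
    rw [uIcc_of_le hab] at hr
    simp only
    rw [cnt_eq_sum hM (r := r) (by
      rw [abs_of_nonneg hb, abs_of_nonneg (ha.trans hr.1)]; exact hr.2), Finset.sum_mul]
    apply Finset.sum_congr rfl
    intro p _
    split_ifs <;> simp
  rw [h1, intervalIntegral.integral_finsetSum (fun p _ => ftc_pt_int a b), rm_eq_sum hM,
    rm_eq_sum hMa, ← Finset.sum_sub_distrib]
  apply Finset.sum_congr rfl
  intro p _
  rw [ftc_pt hab, fd, fd]
  congr 2 <;> ring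

theorem rm_diff {a b : ℝ} (ha : 1 ≤ a) (hab : a ≤ b) :
    |(rm b - Real.pi * b ^ 4 / 2) - (rm a - Real.pi * a ^ 4 / 2)| ≤
      6912 * (√b) ^ 3 * √(b - a) := by
  classical
  rcases hab.eq_or_lt with rfl | hlt
  · simp
  have hδ : 0 < b - a := by linarith
  have hsa := summable_psi ha
  have hsb := summable_psi (ha.trans hab)
  have hrad0 : rad 0 = 0 := by simp [rad]
  have e1 : (rm b - Real.pi * b ^ 4 / 2) - (rm a - Real.pi * a ^ 4 / 2) =
      ∑' p : ℤ × ℤ, if p = 0 then 0 else (psi b (rad p) - psi a (rad p)) := by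
    have h1 := (hsb.sub hsa).tsum_eq_add_tsum_ite (0 : ℤ × ℤ)
    rw [hsb.tsum_sub hsa, ← poisson_plane ha, ← poisson_plane (ha.trans hab), hrad0,
      psi_zero (by linarith), psi_zero (by linarith)] at h1
    linarith
  rw [e1]
  have hF0 : ∀ p : ℤ × ℤ, 0 ≤ (if p = 0 then 0 else |psi b (rad p) - psi a (rad p)|) := by
    intro p
    split_ifs
    · exact le_rfl
    · exact abs_nonneg _
  have hbound : ∀ S : Finset (ℤ × ℤ),
      ∑ p ∈ S, (if p = 0 then 0 else |psi b (rad p) - psi a (rad p)|) ≤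
        6912 * (√b) ^ 3 * √(b - a) := by
    apply box_sum_le hF0 (h := fun n => 108 * (√b) ^ 3 * wt (b - a) n)
    · intro p
      split_ifs with hp
      · have : 0 ≤ wt (b - a) (max p.1.natAbs p.2.natAbs) := by
          unfold wt; apply le_min <;> positivity
        positivity
      · exact psi_sub_le_wt ha hab hp
    · intro M
      have := wt_sum hδ M
      calc ∑ n ∈ range M, ((box n : Finset (ℤ × ℤ)).card : ℝ) * (108 * (√b) ^ 3 * wt (b - a) n)
          = 108 * (√b) ^ 3 * ∑ n ∈ range M, ((box n : Finset (ℤ × ℤ)).card : ℝ) * wt (b - a) n := by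
            rw [Finset.mul_sum]
            apply Finset.sum_congr rfl
            intro n _; ring
        _ ≤ 108 * (√b) ^ 3 * (64 * √(b - a)) := by gcongr
        _ = _ := by ring
  have hsum : Summable fun p : ℤ × ℤ => (if p = 0 then 0 else |psi b (rad p) - psi a (rad p)|) :=
    summable_of_sum_le hF0 hbound
  have hnorm : ∀ p : ℤ × ℤ, ‖(if p = 0 then (0:ℝ) else (psi b (rad p) - psi a (rad p)))‖ =
      (if p = 0 then 0 else |psi b (rad p) - psi a (rad p)|) := by
    intro p
    split_ifs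
    · simp
    · rw [Real.norm_eq_abs]
  rw [← Real.norm_eq_abs]
  calc ‖∑' p : ℤ × ℤ, if p = 0 then (0:ℝ) else (psi b (rad p) - psi a (rad p))‖
      ≤ ∑' p : ℤ × ℤ, ‖(if p = 0 then (0:ℝ) else (psi b (rad p) - psi a (rad p)))‖ := by
        apply norm_tsum_le_tsum_norm
        simp_rw [hnorm]; exact hsum
    _ = ∑' p : ℤ × ℤ, (if p = 0 then 0 else |psi b (rad p) - psi a (rad p)|) := by
        simp_rw [hnorm]
    _ ≤ _ := Real.tsum_le_of_sum_le hF0 hbound

theorem cnt_nonneg (r : ℝ) : 0 ≤ cnt r := Nat.cast_nonneg _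

theorem cnt_mono {r s : ℝ} (hr : 0 ≤ r) (hrs : r ≤ s) : cnt r ≤ cnt s := by
  classical
  obtain ⟨M, hM⟩ : ∃ M : ℤ, |s| < M := exists_int_gt _
  rw [cnt_eq_sum hM le_rfl, cnt_eq_sum hM (r := r)
    (by rw [abs_of_nonneg hr, abs_of_nonneg (hr.trans hrs)]; exact hrs)]
  apply Finset.sum_le_sum
  intro p _
  have : r ^ 2 ≤ s ^ 2 := pow_le_pow_left₀ hr hrs 2
  split_ifs with h1 h2
  · exact le_rfl
  · exact absurd (h1.trans this) h2
  · exact zero_le_one
  · exact le_rfl

theorem cnt_int {a b : ℝ} (ha : 0 ≤ a) (hab : a ≤ b) : IntervalIntegrable cnt volume a b := by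
  apply MonotoneOn.intervalIntegrable
  intro x hx y _ hxy
  rw [uIcc_of_le hab] at hx
  exact cnt_mono (ha.trans hx.1) hxy

theorem err_int {a b : ℝ} (ha : 0 ≤ a) (hab : a ≤ b) : IntervalIntegrable err volume a b :=
  (cnt_int ha hab).sub (Continuous.intervalIntegrable (by fun_prop) _ _)

theorem integral_err {a b : ℝ} (ha : 0 ≤ a) (hab : a ≤ b) :
    ∫ r in a..b, err r * (2 * r) =
      (rm b - Real.pi * b ^ 4 / 2) - (rm a - Real.pi * a ^ 4 / 2) := by
  have h1 : IntervalIntegrable (fun r => cnt r * (2 * r)) volume a b :=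
    (cnt_int ha hab).mul_continuousOn (by fun_prop)
  have h2 : IntervalIntegrable (fun r : ℝ => Real.pi * r ^ 2 * (2 * r)) volume a b :=
    Continuous.intervalIntegrable (by fun_prop) _ _
  have h3 : ∫ r in a..b, err r * (2 * r) =
      (∫ r in a..b, cnt r * (2 * r)) - ∫ r in a..b, Real.pi * r ^ 2 * (2 * r) := by
    rw [← intervalIntegral.integral_sub h1 h2]
    congr 1
    ext r
    rw [err]; ring
  have h4 : ∫ r in a..b, Real.pi * r ^ 2 * (2 * r) = Real.pi * b ^ 4 / 2 - Real.pi * a ^ 4 / 2 := by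
    apply intervalIntegral.integral_eq_sub_of_hasDerivAt (f := fun r => Real.pi * r ^ 4 / 2)
    · intro x _
      refine HasDerivAt.congr_deriv (((hasDerivAt_pow 4 x).const_mul Real.pi).div_const 2) ?_
      norm_num; ring
    · exact h2
  rw [h3, integral_cnt ha hab, h4]
  ring

theorem err_trivial {r : ℝ} (hr : 1 ≤ r) : |err r| ≤ 13830 * r := by
  have hr0 : 0 ≤ r := by linarith
  have hpi3 := Real.pi_gt_three
  have hpi4 := Real.pi_lt_four
  have hup : err r ≤ 13830 * r := by
    have h1 : cnt r * (2 * r + 1) ≤ rm (r + 1) - rm r := by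
      rw [← integral_cnt hr0 (by linarith)]
      have h2 : cnt r * (2 * r + 1) = ∫ t in r..(r + 1), cnt r * (2 * t) := by
        rw [intervalIntegral.integral_const_mul, intervalIntegral.integral_const_mul, integral_id]
        ring
      rw [h2]
      apply intervalIntegral.integral_mono_on (by linarith)
      · exact Continuous.intervalIntegrable (by fun_prop) _ _
      · exact (cnt_int hr0 (by linarith)).mul_continuousOn (by fun_prop)
      · intro x hx
        have := cnt_mono hr0 hx.1
        have hx0 : 0 ≤ 2 * x := by linarith [hx.1]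
        gcongr
    have h3 := (abs_le.mp (rm_diff hr (by linarith : r ≤ r + 1))).2
    have h4 : √(r + 1 - r) = 1 := by
      rw [add_sub_cancel_left, Real.sqrt_one]
    rw [h4, mul_one] at h3
    have h5 : (√(r + 1)) ^ 3 ≤ (2 * r + 1) * (3 / 2 * r) := by
      have e1 : (√(r + 1)) ^ 2 = r + 1 := Real.sq_sqrt (by linarith)
      have e2 : √(r + 1) ≤ 3 / 2 * r := by
        apply Real.sqrt_le_iff.mpr
        constructor
        · positivity
        · nlinarith
      calc (√(r + 1)) ^ 3 = (√(r + 1)) ^ 2 * √(r + 1) := by ring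
        _ ≤ (2 * r + 1) * (3 / 2 * r) := by
            rw [e1]; gcongr; linarith
    have h6 : err r * (2 * r + 1) ≤ 13830 * r * (2 * r + 1) := by
      have e1 : err r * (2 * r + 1) = cnt r * (2 * r + 1) - Real.pi * r ^ 2 * (2 * r + 1) := by
        rw [err]; ring
      have e2 : Real.pi * (r + 1) ^ 4 / 2 - Real.pi * r ^ 4 / 2 - Real.pi * r ^ 2 * (2 * r + 1) =
          Real.pi * ((2 * r + 1) * (r + 1 / 2)) := by ring
      have e3 : Real.pi * ((2 * r + 1) * (r + 1 / 2)) ≤ 4 * ((2 * r + 1) * (r + 1 / 2)) := by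
        gcongr
      nlinarith
    exact le_of_mul_le_mul_right h6 (by linarith)
  have hlow : -(13830 * r) ≤ err r := by
    rcases le_or_gt 2 r with h2 | h2
    · have h1 : rm r - rm (r - 1) ≤ cnt r * (2 * r - 1) := by
        rw [← integral_cnt (by linarith) (by linarith : r - 1 ≤ r)]
        have h2 : cnt r * (2 * r - 1) = ∫ t in (r - 1)..r, cnt r * (2 * t) := by
          rw [intervalIntegral.integral_const_mul, intervalIntegral.integral_const_mul, integral_id]
          ring
        rw [h2]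
        apply intervalIntegral.integral_mono_on (by linarith)
        · exact (cnt_int (by linarith) (by linarith)).mul_continuousOn (by fun_prop)
        · exact Continuous.intervalIntegrable (by fun_prop) _ _
        · intro x hx
          have := cnt_mono (by linarith [hx.1]) hx.2
          have hx0 : 0 ≤ 2 * x := by linarith [hx.1]
          gcongr
      have h3 := (abs_le.mp (rm_diff (by linarith : 1 ≤ r - 1) (by linarith : r - 1 ≤ r))).1
      have h4 : √(r - (r - 1)) = 1 := by
        rw [sub_sub_cancel, Real.sqrt_one]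
      rw [h4, mul_one] at h3
      have h5 : (√r) ^ 3 ≤ (2 * r - 1) * r := by
        have e1 : (√r) ^ 2 = r := Real.sq_sqrt (by linarith)
        have e2 : √r ≤ 2 * r - 1 := by
          apply Real.sqrt_le_iff.mpr
          constructor
          · linarith
          · nlinarith
        calc (√r) ^ 3 = √r * (√r) ^ 2 := by ring
          _ ≤ (2 * r - 1) * r := by
              rw [e1]; gcongr
      have h6 : -(13830 * r) * (2 * r - 1) ≤ err r * (2 * r - 1) := by
        have e1 : err r * (2 * r - 1) = cnt r * (2 * r - 1) - Real.pi * r ^ 2 * (2 * r - 1) := by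
          rw [err]; ring
        have e2 : Real.pi * r ^ 4 / 2 - Real.pi * (r - 1) ^ 4 / 2 - Real.pi * r ^ 2 * (2 * r - 1) =
            -(Real.pi * ((2 * r - 1) * (r - 1 / 2))) := by ring
        have e3 : Real.pi * ((2 * r - 1) * (r - 1 / 2)) ≤ 4 * ((2 * r - 1) * (r - 1 / 2)) := by
          have : 0 ≤ (2 * r - 1) * (r - 1 / 2) := by nlinarith
          gcongr
        nlinarith
      exact le_of_mul_le_mul_right h6 (by linarith)
    · have := cnt_nonneg r
      rw [err]
      nlinarith
  exact abs_le.mpr ⟨hlow, hup⟩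

/-- **Short averages of the error term.** -/
theorem avg_bound {a b : ℝ} (ha : 1 ≤ a) (hab : a ≤ b) (hb : b ≤ a + 1) :
    |∫ r in a..b, err r| ≤ 38100 * √a * √(b - a) := by
  have ha0 : 0 < a := by linarith
  set δ : ℝ := b - a with hδ
  have hδ0 : 0 ≤ δ := by linarith
  have hδ1 : δ ≤ 1 := by linarith
  have hsδ : δ ≤ √δ := by
    apply Real.le_sqrt_of_sq_le
    nlinarith
  have hei := err_int ha0.le hab
  have h1 : ∫ r in a..b, err r * (2 * r) =
      2 * a * (∫ r in a..b, err r) + ∫ r in a..b, err r * (2 * (r - a)) := by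
    rw [← intervalIntegral.integral_const_mul, ← intervalIntegral.integral_add]
    · congr 1
      ext r; ring
    · exact hei.const_mul _
    · exact hei.mul_continuousOn (by fun_prop)
  have h2 : |∫ r in a..b, err r * (2 * r)| ≤ 6912 * (√b) ^ 3 * √δ := by
    rw [integral_err ha0.le hab]
    exact rm_diff ha hab
  have h3 : |∫ r in a..b, err r * (2 * (r - a))| ≤ (13830 * b * (2 * δ)) * δ := by
    have := intervalIntegral.norm_integral_le_of_norm_le_const (a := a) (b := b)
      (f := fun r => err r * (2 * (r - a))) (C := 13830 * b * (2 * δ)) (by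
        intro x hx
        rw [uIoc_of_le hab] at hx
        rw [norm_mul, Real.norm_eq_abs, Real.norm_eq_abs]
        have e1 := err_trivial (r := x) (by linarith [hx.1])
        have e2 : |2 * (x - a)| ≤ 2 * δ := by
          rw [abs_of_nonneg (by linarith [hx.1])]
          linarith [hx.2]
        have e3 : 13830 * x ≤ 13830 * b := by linarith [hx.2]
        have e4 : 0 ≤ 13830 * x := by linarith [hx.1]
        calc |err x| * |2 * (x - a)| ≤ (13830 * x) * (2 * δ) := by
              gcongr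
          _ ≤ 13830 * b * (2 * δ) := by gcongr)
    rw [Real.norm_eq_abs, abs_of_nonneg hδ0] at this
    exact this
  have hb2 : b ≤ 2 * a := by linarith
  have hsa : 1 ≤ √a := Real.one_le_sqrt.mpr ha
  have hsa2 : (√a) ^ 2 = a := Real.sq_sqrt ha0.le
  have hsb : √b ≤ 3 / 2 * √a := by
    apply Real.sqrt_le_iff.mpr
    constructor
    · positivity
    · rw [mul_pow, hsa2]; linarith
  have hsb3 : (√b) ^ 3 ≤ 3 * (a * √a) := by
    have : (√b) ^ 2 = b := Real.sq_sqrt (by linarith)
    calc (√b) ^ 3 = (√b) ^ 2 * √b := by ring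
      _ ≤ (2 * a) * (3 / 2 * √a) := by
          rw [this]; gcongr
      _ = 3 * (a * √a) := by ring
  have hδ2 : δ * δ ≤ √δ := by nlinarith
  have h4 : 2 * a * |∫ r in a..b, err r| ≤ 2 * a * (38100 * √a * √δ) := by
    have e1 : 2 * a * |∫ r in a..b, err r| = |2 * a * ∫ r in a..b, err r| := by
      rw [abs_mul, abs_of_pos (by positivity : 0 < 2 * a)]
    have e2 : 2 * a * (∫ r in a..b, err r) =
        (∫ r in a..b, err r * (2 * r)) - ∫ r in a..b, err r * (2 * (r - a)) := by
      rw [h1]; ring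
    rw [e1, e2]
    calc |(∫ r in a..b, err r * (2 * r)) - ∫ r in a..b, err r * (2 * (r - a))|
        ≤ |∫ r in a..b, err r * (2 * r)| + |∫ r in a..b, err r * (2 * (r - a))| := abs_sub _ _
      _ ≤ 6912 * (√b) ^ 3 * √δ + (13830 * b * (2 * δ)) * δ := add_le_add h2 h3
      _ = 6912 * (√b) ^ 3 * √δ + 27660 * b * (δ * δ) := by ring
      _ ≤ 6912 * (3 * (a * √a)) * √δ + 27660 * (2 * a * √a) * √δ := by
          gcongr
          nlinarith
      _ ≤ 2 * a * (38100 * √a * √δ) := by
          have : 0 ≤ a * √a * √δ := by positivity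
          nlinarith
  exact le_of_mul_le_mul_left h4 (by positivity)

end Pool.Agent.Helper65
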