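import Mathlib

/-!
# The operator of `Pool/Agent/S06219.lean` (helper45) and weak limits of its powers

The first part (up to `exists_special`) is a copy of the proof of helper45 for the frozen statement `S06219`, with `inner_Phi_iter` for two vectors.
-/

set_option autoImplicit false
set_option linter.unusedSimpArgs false
set_option linter.deprecated false
open scoped InnerProductSpace
open Filter Topology

namespace Pool.Agent.Helper65.NumOrb


/-- The Hilbert space. -/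
abbrev H : Type := lp (fun _ : ℕ => ℂ) 2

lemma two_toReal_pos : 0 < (2 : ENNReal).toReal := by norm_num

lemma summable_sq (f : H) : Summable (fun n => ‖f n‖ ^ 2) := by
  have := (lp.hasSum_norm two_toReal_pos f).summable
  simpa using this

lemma norm_sq_eq (f : H) : ‖f‖ ^ 2 = ∑' n, ‖f n‖ ^ 2 := by
  have := lp.norm_rpow_eq_tsum two_toReal_pos f
  simpa using this

lemma memlp_of_summable (f : ℕ → ℂ) (h : Summable (fun n => ‖f n‖ ^ 2)) :
    Memℓp f 2 := by
  apply memℓp_gen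
  simpa using h

/-- join two vectors: even coordinates from `f`, odd ones from `g`. -/
noncomputable def join (f g : H) : H :=
  ⟨fun n => if n % 2 = 0 then f (n / 2) else g (n / 2), by
    apply memlp_of_summable
    apply HasSum.summable (a := (∑' n, ‖f n‖ ^ 2) + ∑' n, ‖g n‖ ^ 2)
    apply HasSum.even_add_odd
    · have := (summable_sq f).hasSum
      convert this using 4
      simp
    · have := (summable_sq g).hasSum
      convert this using 4
      rename_i k
      have h1 : (2 * k + 1) % 2 = 1 := by omega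
      have h2 : (2 * k + 1) / 2 = k := by omega
      simp [h1, h2]⟩

lemma join_even (f g : H) (n : ℕ) : join f g (2 * n) = f n := by
  show (if (2 * n) % 2 = 0 then f ((2 * n) / 2) else g ((2 * n) / 2)) = f n
  simp

lemma join_odd (f g : H) (n : ℕ) : join f g (2 * n + 1) = g n := by
  show (if (2 * n + 1) % 2 = 0 then f ((2 * n + 1) / 2) else g ((2 * n + 1) / 2)) = g n
  have h1 : (2 * n + 1) % 2 = 1 := by omega
  have h2 : (2 * n + 1) / 2 = n := by omega
  simp [h1, h2]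

/-- even part -/
noncomputable def ev (f : H) : H :=
  ⟨fun n => f (2 * n), by
    apply memlp_of_summable
    exact (summable_sq f).comp_injective (fun a b h => by simpa using h)⟩

/-- odd part -/
noncomputable def od (f : H) : H :=
  ⟨fun n => f (2 * n + 1), by
    apply memlp_of_summable
    exact (summable_sq f).comp_injective (i := fun n => 2 * n + 1) (fun a b h => by simpa using h)⟩

@[simp] lemma ev_apply (f : H) (n : ℕ) : ev f n = f (2 * n) := rfl
@[simp] lemma od_apply (f : H) (n : ℕ) : od f n = f (2 * n + 1) := rfl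

@[simp] lemma ev_join (f g : H) : ev (join f g) = f := by
  ext n; simp [join_even]

@[simp] lemma od_join (f g : H) : od (join f g) = g := by
  ext n; simp [join_odd]

lemma join_ev_od (f : H) : join (ev f) (od f) = f := by
  ext n
  obtain ⟨k, hk | hk⟩ := Nat.even_or_odd' n
  · rw [hk, join_even, ev_apply]
  · rw [hk, join_odd, od_apply]

lemma norm_sq_ev_od (f : H) : ‖f‖ ^ 2 = ‖ev f‖ ^ 2 + ‖od f‖ ^ 2 := by
  rw [norm_sq_eq f, norm_sq_eq (ev f), norm_sq_eq (od f)]
  symm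
  apply tsum_even_add_odd (f := fun n => ‖f n‖ ^ 2)
  · exact summable_sq (ev f)
  · exact summable_sq (od f)

lemma norm_sq_join (f g : H) : ‖join f g‖ ^ 2 = ‖f‖ ^ 2 + ‖g‖ ^ 2 := by
  rw [norm_sq_ev_od, ev_join, od_join]

lemma norm_ev_le (f : H) : ‖ev f‖ ≤ ‖f‖ := by
  apply le_of_sq_le_sq _ (norm_nonneg _)
  rw [norm_sq_ev_od f]
  nlinarith [sq_nonneg ‖od f‖]

lemma norm_od_le (f : H) : ‖od f‖ ≤ ‖f‖ := by
  apply le_of_sq_le_sq _ (norm_nonneg _)
  rw [norm_sq_ev_od f]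
  nlinarith [sq_nonneg ‖ev f‖]

/-- even part as a bounded operator -/
noncomputable def R0 : H →L[ℂ] H :=
  LinearMap.mkContinuous
    { toFun := ev
      map_add' := fun f g => by ext n; rfl
      map_smul' := fun c f => by ext n; rfl } 1
    (fun f => by simpa using norm_ev_le f)

/-- odd part as a bounded operator -/
noncomputable def R1 : H →L[ℂ] H :=
  LinearMap.mkContinuous
    { toFun := od
      map_add' := fun f g => by ext n; rfl
      map_smul' := fun c f => by ext n; rfl } 1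
    (fun f => by simpa using norm_od_le f)

@[simp] lemma R0_apply (f : H) : R0 f = ev f := rfl
@[simp] lemma R1_apply (f : H) : R1 f = od f := rfl

lemma ext_ev_od {f g : H} (h0 : ev f = ev g) (h1 : od f = od g) : f = g := by
  rw [← join_ev_od f, ← join_ev_od g, h0, h1]

/-- embedding on even coordinates -/
noncomputable def S0 : H →L[ℂ] H :=
  LinearMap.mkContinuous
    { toFun := fun f => join f 0
      map_add' := fun f g => by
        apply ext_ev_od
        · rw [ev_join]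
          show f + g = R0 (join f 0 + join g 0)
          rw [map_add]; simp
        · rw [od_join]
          show 0 = R1 (join f 0 + join g 0)
          rw [map_add]; simp
      map_smul' := fun c f => by
        apply ext_ev_od
        · rw [ev_join]
          show c • f = R0 (c • join f 0)
          rw [map_smul]; simp
        · rw [od_join]
          show 0 = R1 (c • join f 0)
          rw [map_smul]; simp } 1
    (fun f => by
      show ‖join f 0‖ ≤ 1 * ‖f‖
      apply le_of_sq_le_sq _ (by positivity)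
      rw [norm_sq_join]; simp)

/-- embedding on odd coordinates -/
noncomputable def S1 : H →L[ℂ] H :=
  LinearMap.mkContinuous
    { toFun := fun f => join 0 f
      map_add' := fun f g => by
        apply ext_ev_od
        · rw [ev_join]
          show 0 = R0 (join 0 f + join 0 g)
          rw [map_add]; simp
        · rw [od_join]
          show f + g = R1 (join 0 f + join 0 g)
          rw [map_add]; simp
      map_smul' := fun c f => by
        apply ext_ev_od
        · rw [ev_join]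
          show 0 = R0 (c • join 0 f)
          rw [map_smul]; simp
        · rw [od_join]
          show c • f = R1 (c • join 0 f)
          rw [map_smul]; simp } 1
    (fun f => by
      show ‖join 0 f‖ ≤ 1 * ‖f‖
      apply le_of_sq_le_sq _ (by positivity)
      rw [norm_sq_join]; simp)

@[simp] lemma ev_S0 (f : H) : ev (S0 f) = f := ev_join f 0
@[simp] lemma od_S0 (f : H) : od (S0 f) = 0 := od_join f 0
@[simp] lemma ev_S1 (f : H) : ev (S1 f) = 0 := ev_join 0 f
@[simp] lemma od_S1 (f : H) : od (S1 f) = f := od_join 0 f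

lemma norm_R0_le : ‖R0‖ ≤ 1 := LinearMap.mkContinuous_norm_le _ zero_le_one _
lemma norm_R1_le : ‖R1‖ ≤ 1 := LinearMap.mkContinuous_norm_le _ zero_le_one _
lemma norm_S0_le : ‖S0‖ ≤ 1 := LinearMap.mkContinuous_norm_le _ zero_le_one _
lemma norm_S1_le : ‖S1‖ ≤ 1 := LinearMap.mkContinuous_norm_le _ zero_le_one _


lemma R0_S0 : R0 * S0 = 1 := by ext1 f; exact ev_S0 f
lemma R1_S0 : R1 * S0 = 0 := by ext1 f; exact od_S0 f
lemma R0_S1 : R0 * S1 = 0 := by ext1 f; exact ev_S1 f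
lemma R1_S1 : R1 * S1 = 1 := by ext1 f; exact od_S1 f

/-- The building block `Q x`. -/
noncomputable def Q (x : ℂ) : H →L[ℂ] H :=
  x • (S0 * R0) - (x ^ 2 / 2) • (S0 * R1) + (2 : ℂ) • (S1 * R0) - x • (S1 * R1)

lemma norm_mul_le_one {A B : H →L[ℂ] H} (hA : ‖A‖ ≤ 1) (hB : ‖B‖ ≤ 1) : ‖A * B‖ ≤ 1 :=
  (norm_mul_le A B).trans (mul_le_one₀ hA (norm_nonneg _) hB)

lemma norm_Q_le (x : ℂ) : ‖Q x‖ ≤ (‖x‖ + 2) ^ 2 := by
  have h1 : ‖x • (S0 * R0)‖ ≤ ‖x‖ := by
    rw [norm_smul]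
    exact mul_le_of_le_one_right (norm_nonneg _) (norm_mul_le_one norm_S0_le norm_R0_le)
  have h2 : ‖(x ^ 2 / 2) • (S0 * R1)‖ ≤ ‖x‖ ^ 2 / 2 := by
    rw [norm_smul, norm_div, norm_pow]
    refine (mul_le_of_le_one_right (by positivity) (norm_mul_le_one norm_S0_le norm_R1_le)).trans ?_
    simp
  have h3 : ‖(2 : ℂ) • (S1 * R0)‖ ≤ 2 := by
    rw [norm_smul]
    refine (mul_le_of_le_one_right (by positivity) (norm_mul_le_one norm_S1_le norm_R0_le)).trans ?_
    simp
  have h4 : ‖x • (S1 * R1)‖ ≤ ‖x‖ := by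
    rw [norm_smul]
    exact mul_le_of_le_one_right (norm_nonneg _) (norm_mul_le_one norm_S1_le norm_R1_le)
  have : ‖Q x‖ ≤ ‖x‖ + ‖x‖ ^ 2 / 2 + 2 + ‖x‖ := by
    unfold Q
    refine (norm_sub_le _ _).trans (add_le_add ?_ h4)
    refine (norm_add_le _ _).trans (add_le_add ?_ h3)
    exact (norm_sub_le _ _).trans (add_le_add h1 h2)
  nlinarith [norm_nonneg x, sq_nonneg ‖x‖]

/-- The terms of the series defining the operator. -/
noncomputable def term (x : ℕ → ℂ) (j : ℕ) : H →L[ℂ] H :=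
  ((1 / 2 : ℂ) ^ j) • (S0 ^ j * Q (x j) * R1 ^ j)

lemma norm_pow_le_one {A : H →L[ℂ] H} (hA : ‖A‖ ≤ 1) (j : ℕ) : ‖A ^ j‖ ≤ 1 := by
  induction j with
  | zero => exact ContinuousLinearMap.norm_id_le
  | succ n ih => rw [pow_succ]; exact norm_mul_le_one ih hA

/-- bound for the terms -/
noncomputable def bnd (M : ℝ) (j : ℕ) : ℝ := (1 / 2 : ℝ) ^ j * (M + j + 2) ^ 2

lemma norm_term_le {x : ℕ → ℂ} {M : ℝ} (hx : ∀ j, ‖x j‖ ≤ M + j) (j : ℕ) :
    ‖term x j‖ ≤ bnd M j := by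
  unfold term bnd
  rw [norm_smul, norm_pow]
  have h1 : ‖(1 / 2 : ℂ)‖ = 1 / 2 := by norm_num
  rw [h1]
  apply mul_le_mul_of_nonneg_left _ (by positivity)
  have h2 : ‖S0 ^ j * Q (x j) * R1 ^ j‖ ≤ ‖Q (x j)‖ := by
    refine (norm_mul_le _ _).trans ?_
    refine (mul_le_of_le_one_right (norm_nonneg _) (norm_pow_le_one norm_R1_le j)).trans ?_
    refine (norm_mul_le _ _).trans ?_
    exact mul_le_of_le_one_left (norm_nonneg _) (norm_pow_le_one norm_S0_le j)
  refine h2.trans ((norm_Q_le _).trans ?_)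
  have := hx j
  have h0 := norm_nonneg (x j)
  gcongr

lemma summable_bnd (M : ℝ) : Summable (bnd M) := by
  unfold bnd
  have h0 : Summable (fun j : ℕ => ((j : ℝ) ^ 2 * (1 / 2 : ℝ) ^ j)) :=
    summable_pow_mul_geometric_of_norm_lt_one 2 (by norm_num)
  have h1 : Summable (fun j : ℕ => ((j : ℝ) ^ 1 * (1 / 2 : ℝ) ^ j)) :=
    summable_pow_mul_geometric_of_norm_lt_one 1 (by norm_num)
  have h2 : Summable (fun j : ℕ => ((1 / 2 : ℝ) ^ j)) :=
    summable_geometric_of_norm_lt_one (by norm_num)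
  convert (h0.add (h1.mul_left (2 * (M + 2)))).add (h2.mul_left ((M + 2) ^ 2)) using 1
  ext j
  ring

/-- The operator attached to a sequence. -/
noncomputable def T (x : ℕ → ℂ) : H →L[ℂ] H := ∑' j, term x j

lemma summable_term {x : ℕ → ℂ} {M : ℝ} (hx : ∀ j, ‖x j‖ ≤ M + j) : Summable (term x) :=
  Summable.of_norm_bounded (summable_bnd M) (norm_term_le hx)

lemma norm_T_le {x : ℕ → ℂ} {M : ℝ} (hx : ∀ j, ‖x j‖ ≤ M + j) : ‖T x‖ ≤ ∑' j, bnd M j :=
  tsum_of_norm_bounded (summable_bnd M).hasSum (norm_term_le hx)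

lemma T_rec {x : ℕ → ℂ} {M : ℝ} (hx : ∀ j, ‖x j‖ ≤ M + j) :
    T x = Q (x 0) + (1 / 2 : ℂ) • (S0 * T (fun j => x (j + 1)) * R1) := by
  unfold T
  rw [(summable_term hx).tsum_eq_zero_add]
  congr 1
  · simp [term]
  · have hx' : ∀ j, ‖(fun j => x (j + 1)) j‖ ≤ (M + 1) + j := by
      intro j
      have := hx (j + 1)
      push_cast at this
      simp only
      linarith
    have hs := summable_term hx'
    rw [← hs.tsum_mul_left, ← (hs.mul_left S0).tsum_mul_right, ← ((hs.mul_left S0).mul_right R1).tsum_const_smul]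
    congr 1
    ext1 j
    unfold term
    rw [pow_succ', pow_succ' S0, pow_succ R1]
    simp only [mul_smul_comm, smul_mul_assoc, smul_smul, mul_assoc]

/-- The ampliation `A ↦ A ⊕ A`. -/
noncomputable def Phi (A : H →L[ℂ] H) : H →L[ℂ] H := S0 * A * R0 + S1 * A * R1

lemma mulH_apply (A B : H →L[ℂ] H) (f : H) : (A * B) f = A (B f) := rfl

lemma ev_Phi (A : H →L[ℂ] H) (f : H) : ev (Phi A f) = A (ev f) := by
  show R0 ((S0 * A * R0 + S1 * A * R1) f) = _
  simp [ContinuousLinearMap.add_apply, map_add]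

lemma od_Phi (A : H →L[ℂ] H) (f : H) : od (Phi A f) = A (od f) := by
  show R1 ((S0 * A * R0 + S1 * A * R1) f) = _
  simp [ContinuousLinearMap.add_apply, map_add]

lemma Phi_mul (A B : H →L[ℂ] H) : Phi (A * B) = Phi A * Phi B := by
  ext1 f
  apply ext_ev_od
  · rw [ev_Phi]; show _ = ev (Phi A (Phi B f)); rw [ev_Phi, ev_Phi]; rfl
  · rw [od_Phi]; show _ = od (Phi A (Phi B f)); rw [od_Phi, od_Phi]; rfl

lemma norm_Phi_le (A : H →L[ℂ] H) : ‖Phi A‖ ≤ ‖A‖ := by
  apply ContinuousLinearMap.opNorm_le_bound _ (norm_nonneg _)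
  intro f
  apply le_of_sq_le_sq _ (by positivity)
  rw [norm_sq_ev_od, ev_Phi, od_Phi, mul_pow, norm_sq_ev_od f]
  have h1 := A.le_opNorm (ev f)
  have h2 := A.le_opNorm (od f)
  have h3 : ‖A (ev f)‖ ^ 2 ≤ (‖A‖ * ‖ev f‖) ^ 2 := by gcongr
  have h4 : ‖A (od f)‖ ^ 2 ≤ (‖A‖ * ‖od f‖) ^ 2 := by gcongr
  nlinarith

lemma norm_Phi_iter_le (a : ℕ) (A : H →L[ℂ] H) : ‖Phi^[a] A‖ ≤ ‖A‖ := by
  induction a with
  | zero => simp
  | succ n ih => rw [Function.iterate_succ_apply']; exact (norm_Phi_le _).trans ih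

lemma Phi_iter_mul (a : ℕ) (A B : H →L[ℂ] H) : Phi^[a] (A * B) = Phi^[a] A * Phi^[a] B := by
  induction a with
  | zero => simp
  | succ n ih => rw [Function.iterate_succ_apply', Function.iterate_succ_apply',
      Function.iterate_succ_apply', ih, Phi_mul]

lemma ev_T {x : ℕ → ℂ} {M : ℝ} (hx : ∀ j, ‖x j‖ ≤ M + j) (f : H) :
    ev (T x f) = x 0 • ev f + (1 / 2 : ℂ) • T (fun j => x (j + 1)) (od f) - (x 0 ^ 2 / 2) • od f := by
  rw [T_rec hx]
  show R0 _ = _
  unfold Q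
  simp only [ContinuousLinearMap.add_apply, ContinuousLinearMap.sub_apply,
    ContinuousLinearMap.smul_apply, mulH_apply, map_add, map_sub, map_smul,
    R0_apply, R1_apply, ev_S0, ev_S1, smul_zero, sub_zero, add_zero]
  module

lemma od_T {x : ℕ → ℂ} {M : ℝ} (hx : ∀ j, ‖x j‖ ≤ M + j) (f : H) :
    od (T x f) = (2 : ℂ) • ev f - x 0 • od f := by
  rw [T_rec hx]
  show R1 _ = _
  unfold Q
  simp only [ContinuousLinearMap.add_apply, ContinuousLinearMap.sub_apply,
    ContinuousLinearMap.smul_apply, mulH_apply, map_add, map_sub, map_smul,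
    R0_apply, R1_apply, od_S0, od_S1, smul_zero, sub_zero, add_zero, zero_add, sub_self, zero_sub]

lemma T_mul_self {x : ℕ → ℂ} {M : ℝ} (hx : ∀ j, ‖x j‖ ≤ M + j) :
    T x * T x = Phi (T (fun j => x (j + 1))) := by
  ext1 f
  show T x (T x f) = _
  apply ext_ev_od
  · rw [ev_T hx, ev_Phi, ev_T hx, od_T hx]
    simp only [map_sub, map_smul]
    module
  · rw [od_T hx, od_Phi, ev_T hx, od_T hx]
    module

lemma T_pow {x : ℕ → ℂ} {M : ℝ} (hx : ∀ j, ‖x j‖ ≤ M + j) (a : ℕ) :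
    T x ^ (2 ^ a) = Phi^[a] (T (fun j => x (j + a))) := by
  induction a with
  | zero => simp
  | succ n ih =>
    have hx' : ∀ j, ‖(fun j => x (j + n)) j‖ ≤ (M + n) + j := by
      intro j
      have := hx (j + n)
      push_cast at this
      simp only
      linarith
    rw [pow_succ, pow_mul, ih, sq, ← Phi_iter_mul, T_mul_self hx', ← Function.iterate_succ_apply]
    congr 3
    ext j
    congr 1
    ring


/-- The zeroth basis vector. -/
noncomputable def e0 : H := lp.single 2 0 (1 : ℂ)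

lemma e0_zero : e0 0 = 1 := lp.single_apply_self (E := fun _ : ℕ => ℂ) 2 0 (1 : ℂ)
lemma e0_ne {n : ℕ} (h : n ≠ 0) : e0 n = 0 :=
  lp.single_apply_ne (E := fun _ : ℕ => ℂ) 2 0 (1 : ℂ) h

lemma ev_e0 : ev e0 = e0 := by
  ext n
  rw [ev_apply]
  by_cases h : n = 0
  · subst h; simp
  · rw [e0_ne h, e0_ne (by omega)]

lemma od_e0 : od e0 = 0 := by
  ext n
  rw [od_apply, e0_ne (by omega)]
  rfl

lemma inner_e0 (f : H) : ⟪e0, f⟫_ℂ = f 0 := by
  unfold e0
  rw [lp.inner_single_left]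
  simp

lemma inner_e0_T {x : ℕ → ℂ} {M : ℝ} (hx : ∀ j, ‖x j‖ ≤ M + j) : ⟪e0, T x e0⟫_ℂ = x 0 := by
  rw [inner_e0]
  have h : (T x e0) 0 = ev (T x e0) 0 := by simp
  rw [h, ev_T hx, od_e0, ev_e0]
  simp [e0_zero]

lemma inner_ev_od (f g : H) : ⟪f, g⟫_ℂ = ⟪ev f, ev g⟫_ℂ + ⟪od f, od g⟫_ℂ := by
  rw [lp.inner_eq_tsum, lp.inner_eq_tsum, lp.inner_eq_tsum]
  symm
  apply tsum_even_add_odd (f := fun n => ⟪f n, g n⟫_ℂ)
  · exact (lp.hasSum_inner (ev f) (ev g)).summable
  · exact (lp.hasSum_inner (od f) (od g)).summable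

lemma inner_Phi_iter (A : H →L[ℂ] H) (a : ℕ) : ∀ f g : H, (∀ n, 2 ^ a ≤ n → f n = 0) →
    (∀ n, 2 ^ a ≤ n → g n = 0) →
    ⟪f, Phi^[a] A g⟫_ℂ = ⟪e0, A e0⟫_ℂ * ⟪f, g⟫_ℂ := by
  induction a with
  | zero =>
    intro f g hf hg
    have key : ∀ f : H, (∀ n, 2 ^ 0 ≤ n → f n = 0) → f = f 0 • e0 := by
      intro f hf
      ext n
      by_cases h : n = 0
      · subst h
        show f 0 = f 0 * e0 0
        rw [e0_zero, mul_one]
      · show f n = f 0 * e0 n
        rw [e0_ne h, mul_zero, hf n (by omega)]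
    have h1 : ⟪e0, e0⟫_ℂ = 1 := by rw [inner_e0, e0_zero]
    simp only [Function.iterate_zero, id_eq]
    rw [key f hf, key g hg]
    simp only [map_smul, inner_smul_left, inner_smul_right, h1]
    ring
  | succ n ih =>
    have hev : ∀ f : H, (∀ m, 2 ^ (n + 1) ≤ m → f m = 0) → ∀ m, 2 ^ n ≤ m → ev f m = 0 := by
      intro f hf m hm
      rw [ev_apply]
      apply hf
      rw [pow_succ]
      omega
    have hod : ∀ f : H, (∀ m, 2 ^ (n + 1) ≤ m → f m = 0) → ∀ m, 2 ^ n ≤ m → od f m = 0 := by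
      intro f hf m hm
      rw [od_apply]
      apply hf
      rw [pow_succ]
      omega
    intro f g hf hg
    rw [Function.iterate_succ_apply', inner_ev_od, ev_Phi, od_Phi, ih (ev f) (ev g) (hev f hf) (hev g hg),
      ih (od f) (od g) (hod f hf) (hod g hg), ← mul_add, ← inner_ev_od]

/-- Truncation approximates. -/
lemma exists_trunc (f : H) {η : ℝ} (hη : 0 < η) :
    ∃ (g : H) (N : ℕ), (∀ n, N ≤ n → g n = 0) ∧ ‖f - g‖ < η := by
  have h := (lp.hasSum_single (p := 2) (by norm_num) f).tendsto_sum_nat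
  rw [Metric.tendsto_atTop] at h
  obtain ⟨N, hN⟩ := h η hη
  refine ⟨∑ i ∈ Finset.range N, lp.single 2 i (f i), N, ?_, ?_⟩
  · intro n hn
    rw [lp.coeFn_sum, Finset.sum_apply]
    apply Finset.sum_eq_zero
    intro i hi
    rw [Finset.mem_range] at hi
    have hne : n ≠ i := by omega
    exact lp.single_apply_ne (E := fun _ : ℕ => ℂ) 2 i (f i) hne
  · have := hN N le_rfl
    rwa [dist_comm, dist_eq_norm] at this

/-- The sequence of prescribed compressions. -/
noncomputable def seqS (m : ℕ) : ℂ :=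
  if ‖TopologicalSpace.denseSeq ℂ (Nat.unpair m).1‖ ≤ m then
    TopologicalSpace.denseSeq ℂ (Nat.unpair m).1 else 0

lemma norm_seqS_le (m : ℕ) : ‖seqS m‖ ≤ m := by
  unfold seqS
  split_ifs with h
  · exact h
  · simp

noncomputable def seqX (a : ℕ) : ℂ := if 2 ^ (Nat.log 2 a) = a then seqS (Nat.log 2 a) else 0

lemma seqX_pow (m : ℕ) : seqX (2 ^ m) = seqS m := by
  unfold seqX
  rw [Nat.log_pow (by norm_num)]
  simp

lemma norm_seqX_le (a : ℕ) : ‖seqX a‖ ≤ a := by
  unfold seqX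
  split_ifs with h
  · refine (norm_seqS_le _).trans ?_
    have : Nat.log 2 a ≤ a := Nat.log_le_self 2 a
    exact_mod_cast this
  · simp

lemma norm_seqX_add_le (m j : ℕ) : ‖seqX (j + 2 ^ m)‖ ≤ ‖seqX (2 ^ m)‖ + j := by
  rcases Nat.eq_zero_or_pos j with hj | hj
  · subst hj; simp
  · have h0 : 0 ≤ ‖seqX (2 ^ m)‖ := norm_nonneg _
    have key : ‖seqX (j + 2 ^ m)‖ ≤ j := by
      by_cases h : 2 ^ (Nat.log 2 (j + 2 ^ m)) = j + 2 ^ m
      · generalize Nat.log 2 (j + 2 ^ m) = i at h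
        rw [← h, seqX_pow]
        refine (norm_seqS_le _).trans ?_
        have hlt : 2 ^ m < 2 ^ i := by omega
        have hmi : m < i := (Nat.pow_lt_pow_iff_right (by norm_num)).mp hlt
        obtain ⟨k, rfl⟩ : ∃ k, i = k + 1 := ⟨i - 1, by omega⟩
        have h1 : 2 ^ m ≤ 2 ^ k := Nat.pow_le_pow_right (by norm_num) (by omega)
        have h2 : k < 2 ^ k := Nat.lt_two_pow_self
        have h3 : k + 1 ≤ j := by
          rw [pow_succ] at h
          omega
        exact_mod_cast h3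
      · unfold seqX
        rw [if_neg h]
        simp
    linarith

lemma exists_special (z : ℂ) {ε : ℝ} (hε : 0 < ε) (N : ℕ) :
    ∃ a, N ≤ a ∧ ‖seqX a - z‖ < ε ∧ ∀ j : ℕ, ‖seqX (j + a)‖ ≤ (‖z‖ + ε) + j := by
  obtain ⟨i, hi⟩ : ∃ i, ‖TopologicalSpace.denseSeq ℂ i - z‖ < ε := by
    have := (TopologicalSpace.denseRange_denseSeq ℂ).exists_dist_lt z hε
    obtain ⟨i, hi⟩ := this
    refine ⟨i, ?_⟩
    rwa [dist_comm, dist_eq_norm] at hi
  obtain ⟨n, hn⟩ := exists_nat_ge (max (N : ℝ) ‖TopologicalSpace.denseSeq ℂ i‖)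
  set m := Nat.pair i n with hm
  have hnm : n ≤ m := Nat.right_le_pair i n
  have hS : seqS m = TopologicalSpace.denseSeq ℂ i := by
    unfold seqS
    rw [hm, Nat.unpair_pair]
    simp only
    rw [if_pos]
    calc ‖TopologicalSpace.denseSeq ℂ i‖ ≤ (n : ℝ) := (le_max_right _ _).trans hn
      _ ≤ (m : ℝ) := by exact_mod_cast hnm
  refine ⟨2 ^ m, ?_, ?_, ?_⟩
  · have h1 : N ≤ n := by exact_mod_cast (le_max_left _ _).trans hn
    have h2 : m < 2 ^ m := Nat.lt_two_pow_self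
    omega
  · rw [seqX_pow, hS]; exact hi
  · intro j
    refine (norm_seqX_add_le m j).trans ?_
    rw [seqX_pow, hS]
    have : ‖TopologicalSpace.denseSeq ℂ i‖ ≤ ‖z‖ + ε := by
      have := norm_sub_norm_le (TopologicalSpace.denseSeq ℂ i) z
      linarith
    linarith


/-- a subsequence of powers which converges weakly to `z` times the identity -/
theorem weak_limit (z : ℂ) : ∃ n : ℕ → ℕ, StrictMono n ∧
    ∀ x y : H, Tendsto (fun k => ⟪y, (T seqX ^ n k) x⟫_ℂ) atTop (𝓝 (z * ⟪y, x⟫_ℂ)) := by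
  have hX : ∀ j : ℕ, ‖seqX j‖ ≤ 0 + (j : ℝ) := by
    intro j; rw [zero_add]; exact norm_seqX_le j
  set M : ℝ := ‖z‖ + 1 with hM
  set C : ℝ := ∑' j, bnd M j with hC
  have hC0 : 0 ≤ C := tsum_nonneg (fun j => by unfold bnd; positivity)
  obtain ⟨φ, hφ, hφ'⟩ := extraction_forall_of_frequently
    (P := fun k a => ‖seqX a - z‖ < 1 / ((k : ℝ) + 1) ∧ ∀ j : ℕ, ‖seqX (j + a)‖ ≤ M + j) (by
      intro k
      rw [frequently_atTop]
      intro N
      obtain ⟨a, h1, h2, h3⟩ := exists_special z (ε := 1 / ((k : ℝ) + 1)) (by positivity) N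
      refine ⟨a, h1, h2, fun j => (h3 j).trans ?_⟩
      have h4 : 1 / ((k : ℝ) + 1) ≤ 1 := by
        rw [div_le_one (by positivity)]
        have : (0 : ℝ) ≤ k := Nat.cast_nonneg k
        linarith
      linarith)
  refine ⟨fun k => 2 ^ φ k, fun a b h => Nat.pow_lt_pow_right (by norm_num) (hφ h), ?_⟩
  intro x y
  have hY : ∀ k, T seqX ^ (2 ^ φ k) = Phi^[φ k] (T (fun j => seqX (j + φ k))) := fun k => T_pow hX _
  have hYn : ∀ k, ‖T seqX ^ (2 ^ φ k)‖ ≤ C := by
    intro k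
    rw [hY]
    exact (norm_Phi_iter_le _ _).trans (norm_T_le (hφ' k).2)
  rw [Metric.tendsto_atTop]
  intro ε hε
  set K : ℝ := C * ‖x‖ + (‖y‖ + 1) * C + (‖y‖ + 1) * (‖x‖ + 1) + ‖z‖ * (‖x‖ + 1 + ‖y‖) with hK
  have hx0 := norm_nonneg x
  have hy0 := norm_nonneg y
  have hz0 := norm_nonneg z
  have hK0 : 0 ≤ K := by positivity
  set η : ℝ := min 1 (ε / (2 * (K + 1))) with hη
  have hη0 : 0 < η := lt_min one_pos (by positivity)
  have hη1 : η ≤ 1 := min_le_left _ _
  have hη2 : η * K < ε := by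
    have h1 : η ≤ ε / (2 * (K + 1)) := min_le_right _ _
    have h2 : η * (2 * (K + 1)) ≤ ε := by
      rwa [le_div_iff₀ (by positivity)] at h1
    nlinarith
  obtain ⟨x', N1, hx'N, hxx'⟩ := exists_trunc x hη0
  obtain ⟨y', N2, hy'N, hyy'⟩ := exists_trunc y hη0
  obtain ⟨N3, hN3⟩ := exists_nat_gt (1 / η)
  refine ⟨max (max N1 N2) N3, fun k hk => ?_⟩
  have hk1 : N1 ≤ k := ((le_max_left _ _).trans (le_max_left _ _)).trans hk
  have hk2 : N2 ≤ k := ((le_max_right _ _).trans (le_max_left _ _)).trans hk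
  have hk3 : N3 ≤ k := (le_max_right _ _).trans hk
  have hφk : k ≤ φ k := hφ.id_le k
  have h2φ : φ k < 2 ^ φ k := Nat.lt_two_pow_self
  have hclose : ‖seqX (φ k) - z‖ ≤ η := by
    refine (hφ' k).1.le.trans ?_
    rw [div_le_iff₀ (by positivity)]
    have h1 : (N3 : ℝ) ≤ k := by exact_mod_cast hk3
    have h2 : 1 / η < (k : ℝ) + 1 := by linarith
    rw [div_lt_iff₀ hη0] at h2
    linarith
  set Y : H →L[ℂ] H := T seqX ^ (2 ^ φ k) with hYd
  have hYk : ‖Y‖ ≤ C := hYn k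
  have hg : ⟪y', Y x'⟫_ℂ = seqX (φ k) * ⟪y', x'⟫_ℂ := by
    rw [hYd, hY, inner_Phi_iter, inner_e0_T (hφ' k).2]
    · simp
    · intro n hn
      exact hy'N n (by omega)
    · intro n hn
      exact hx'N n (by omega)
  have hxn : ‖x'‖ ≤ ‖x‖ + 1 := by
    have := norm_sub_norm_le x' x
    rw [norm_sub_rev] at this
    linarith
  have hyn : ‖y'‖ ≤ ‖y‖ + 1 := by
    have := norm_sub_norm_le y' y
    rw [norm_sub_rev] at this
    linarith
  rw [dist_eq_norm]
  have e1 : ⟪y, Y x⟫_ℂ - z * ⟪y, x⟫_ℂ = ⟪y - y', Y x⟫_ℂ + ⟪y', Y (x - x')⟫_ℂ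
      + (seqX (φ k) - z) * ⟪y', x'⟫_ℂ - z * (⟪y - y', x'⟫_ℂ + ⟪y, x - x'⟫_ℂ) := by
    rw [inner_sub_left, map_sub, inner_sub_right, hg, inner_sub_left, inner_sub_right]
    ring
  have b1 : ‖⟪y - y', Y x⟫_ℂ‖ ≤ η * (C * ‖x‖) := by
    refine (norm_inner_le_norm _ _).trans ?_
    have : ‖Y x‖ ≤ C * ‖x‖ := Y.le_of_opNorm_le hYk x
    gcongr
  have b2 : ‖⟪y', Y (x - x')⟫_ℂ‖ ≤ (‖y‖ + 1) * (C * η) := by
    refine (norm_inner_le_norm _ _).trans ?_
    have : ‖Y (x - x')‖ ≤ C * η := by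
      refine (Y.le_of_opNorm_le hYk (x - x')).trans ?_
      gcongr
    gcongr
  have b3 : ‖(seqX (φ k) - z) * ⟪y', x'⟫_ℂ‖ ≤ η * ((‖y‖ + 1) * (‖x‖ + 1)) := by
    rw [norm_mul]
    have : ‖⟪y', x'⟫_ℂ‖ ≤ (‖y‖ + 1) * (‖x‖ + 1) := by
      refine (norm_inner_le_norm _ _).trans ?_
      gcongr
    gcongr
  have b4 : ‖z * (⟪y - y', x'⟫_ℂ + ⟪y, x - x'⟫_ℂ)‖ ≤ ‖z‖ * (η * (‖x‖ + 1) + ‖y‖ * η) := by
    rw [norm_mul]
    have h1 : ‖⟪y - y', x'⟫_ℂ‖ ≤ η * (‖x‖ + 1) := by
      refine (norm_inner_le_norm _ _).trans ?_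
      gcongr
    have h2 : ‖⟪y, x - x'⟫_ℂ‖ ≤ ‖y‖ * η := by
      refine (norm_inner_le_norm _ _).trans ?_
      gcongr
    have h3 := norm_add_le (⟪y - y', x'⟫_ℂ) (⟪y, x - x'⟫_ℂ)
    gcongr
    linarith
  rw [e1]
  calc ‖⟪y - y', Y x⟫_ℂ + ⟪y', Y (x - x')⟫_ℂ + (seqX (φ k) - z) * ⟪y', x'⟫_ℂ
        - z * (⟪y - y', x'⟫_ℂ + ⟪y, x - x'⟫_ℂ)‖
      ≤ ‖⟪y - y', Y x⟫_ℂ‖ + ‖⟪y', Y (x - x')⟫_ℂ‖ + ‖(seqX (φ k) - z) * ⟪y', x'⟫_ℂ‖
        + ‖z * (⟪y - y', x'⟫_ℂ + ⟪y, x - x'⟫_ℂ)‖ := by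
        refine (norm_sub_le _ _).trans (add_le_add ?_ le_rfl)
        refine (norm_add_le _ _).trans (add_le_add ?_ le_rfl)
        exact norm_add_le _ _
    _ ≤ η * K := by rw [hK]; nlinarith
    _ < ε := hη2

/-- an infinite dimensional separable complex Hilbert space is isometric to `H` -/
theorem exists_iso (E : Type*) [NormedAddCommGroup E] [InnerProductSpace ℂ E] [CompleteSpace E]
    [TopologicalSpace.SeparableSpace E] (hE : ¬ FiniteDimensional ℂ E) : Nonempty (E ≃ₗᵢ[ℂ] H) := by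
  obtain ⟨w, b, hb⟩ := exists_hilbertBasis ℂ E
  have hcount : w.Countable := by
    refine Set.PairwiseDisjoint.countable_of_isOpen (s := fun v : E => Metric.ball v (1 / 2)) ?_
      (fun v _ => Metric.isOpen_ball) (fun v _ => ⟨v, Metric.mem_ball_self (by norm_num)⟩)
    intro u hu v hv huv
    refine Metric.ball_disjoint_ball ?_
    have h1 : ‖u - v‖ ^ 2 = 2 := by
      have ho := b.orthonormal
      have h2 : ⟪u, v⟫_ℂ = 0 := by
        have := ho.2 (i := ⟨u, hu⟩) (j := ⟨v, hv⟩) (fun h => huv (congrArg Subtype.val h))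
        rwa [hb] at this
      have h3 : ‖u‖ = 1 := by
        have := ho.1 ⟨u, hu⟩
        rwa [hb] at this
      have h4 : ‖v‖ = 1 := by
        have := ho.1 ⟨v, hv⟩
        rwa [hb] at this
      rw [@norm_sub_sq ℂ, h2, h3, h4]
      norm_num
    rw [dist_eq_norm]
    nlinarith [norm_nonneg (u - v)]
  have hinf : Infinite w := by
    by_contra hfin
    rw [not_infinite_iff_finite] at hfin
    haveI : Fintype w := Fintype.ofFinite w
    exact hE (Module.Finite.of_basis b.toOrthonormalBasis.toBasis)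
  haveI : Countable w := hcount.to_subtype
  obtain ⟨_⟩ := nonempty_denumerable w
  have e : w ≃ ℕ := Denumerable.eqv w
  have hv : Orthonormal ℂ (fun n : ℕ => b (e.symm n)) := b.orthonormal.comp _ e.symm.injective
  have hsp : ⊤ ≤ (Submodule.span ℂ (Set.range fun n : ℕ => b (e.symm n))).topologicalClosure := by
    have : Set.range (fun n : ℕ => b (e.symm n)) = Set.range b := e.symm.surjective.range_comp b
    rw [this, b.dense_span]
  exact ⟨(HilbertBasis.mk hv hsp).repr⟩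

/-- transport of the operator -/
theorem transport (E : Type*) [NormedAddCommGroup E] [InnerProductSpace ℂ E] [CompleteSpace E]
    [TopologicalSpace.SeparableSpace E] (hE : ¬ FiniteDimensional ℂ E) :
    ∃ A : E →L[ℂ] E, ∀ z : ℂ, ∃ n : ℕ → ℕ, StrictMono n ∧
      ∀ x y : E, Tendsto (fun k => ⟪y, (A ^ n k) x⟫_ℂ) atTop (𝓝 (z * ⟪y, x⟫_ℂ)) := by
  obtain ⟨f⟩ := exists_iso E hE
  let A : E →L[ℂ] E := (f.symm.toContinuousLinearEquiv : H →L[ℂ] E).comp
    ((T seqX).comp (f.toContinuousLinearEquiv : E →L[ℂ] H))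
  have hA1 : ∀ x, f (A x) = T seqX (f x) := fun x => by
    show f (f.symm (T seqX (f x))) = _
    rw [f.apply_symm_apply]
  have hA : ∀ (n : ℕ) (x : E), f ((A ^ n) x) = (T seqX ^ n) (f x) := by
    intro n
    induction n with
    | zero => intro x; rfl
    | succ n ih =>
      intro x
      rw [pow_succ, pow_succ]
      show f ((A ^ n) (A x)) = (T seqX ^ n) (T seqX (f x))
      rw [ih, hA1]
  refine ⟨A, fun z => ?_⟩
  obtain ⟨n, hn, h⟩ := weak_limit z
  refine ⟨n, hn, fun x y => ?_⟩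
  have h1 := h (f x) (f y)
  rw [f.inner_map_map] at h1
  refine h1.congr fun k => ?_
  rw [← hA, f.inner_map_map]

end Pool.Agent.Helper65.NumOrb
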